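import Pool.Agent.H608.Pw.Proc
import Pool.Agent.H608.Ge.Build

/-!
# Powers: the construction of the sequence
-/

set_option autoImplicit false

namespace Pool.Agent.H608.Pw

open Finset Filter Topology
open Pool.Agent.H608.Sp (prec prec_spec prec_tendsto Sc)
open Pool.Agent.H608.Ge (GProc Small Good)

open Classical in
/-- the next place -/
noncomputable def pickG (G : ℕ → ℕ → Finset ℕ → ℕ → Prop) (p H : ℕ) (F : Finset ℕ) : ℕ :=
  if h : ∃ k, G p H F k then h.choose else 0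

lemma pickG_good {G : ℕ → ℕ → Finset ℕ → ℕ → Prop} {p H : ℕ} {F : Finset ℕ}
    (h : ∃ k, G p H F k) : G p H F (pickG G p H F) := by
  unfold pickG
  rw [dif_pos h]
  exact h.choose_spec

/-- the finite sets of the construction -/
noncomputable def FFG (G : ℕ → ℕ → Finset ℕ → ℕ → Prop) (n p : ℕ → ℕ) : ℕ → Finset ℕ
  | 0 => ∅
  | j + 1 => insert (pickG G (p j) (2 ^ n j) (FFG G n p j)) (FFG G n p j)

lemma FFG_eq (G : ℕ → ℕ → Finset ℕ → ℕ → Prop) (n p : ℕ → ℕ) (j : ℕ) :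
    FFG G n p j = (range j).image fun i => pickG G (p i) (2 ^ n i) (FFG G n p i) := by
  induction j with
  | zero => rfl
  | succ j ih =>
    rw [range_add_one, image_insert, ← ih]
    rfl

theorem exists_seq {γ' : ℝ} {M₀ : ℕ} {n : ℕ → ℕ} (S : Sc γ' n) (G : ℕ → ℕ → Finset ℕ → ℕ → Prop)
    (hG : ∀ p H F k, G p H F k → H < k)
    (T : ℕ → ℕ) (hT : ∀ p : ℕ, ∀ H : ℕ, T p ≤ H → ∀ F : Finset ℕ, Small M₀ F → ∃ k, G p H F k)
    (h0 : T 0 ≤ 2 ^ n 0) (hM : M₀ ≤ 2 ^ n 0) (hM1 : 1 ≤ M₀) : ∃ k pr : ℕ → ℕ, Tendsto pr atTop atTop ∧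
      (∀ j, G (pr j) (2 ^ n j) ((range j).image k) (k j)) ∧ (∀ j, Small M₀ ((range j).image k)) ∧ ∀ j, M₀ ≤ k j := by
  have hH : Tendsto (fun j => 2 ^ n j) atTop atTop :=
    (tendsto_pow_atTop_atTop_of_one_lt (one_lt_two : (1 : ℕ) < 2)).comp S.tendsto
  obtain ⟨pr, hpr⟩ : ∃ pr : ℕ → ℕ, pr = fun j => prec T (2 ^ n j) := ⟨_, rfl⟩
  have hmono : ∀ j, 2 ^ n 0 ≤ 2 ^ n j := fun j =>
    Nat.pow_le_pow_right (by norm_num) (S.strictMono.monotone (Nat.zero_le j))
  have hTpr : ∀ j, T (pr j) ≤ 2 ^ n j := by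
    intro j
    rw [hpr]
    exact prec_spec _ _ (h0.trans (hmono j))
  obtain ⟨FJ, hFJ⟩ : ∃ FJ : ℕ → Finset ℕ, FJ = FFG G n pr := ⟨_, rfl⟩
  have hF0 : FJ 0 = ∅ := by rw [hFJ]; rfl
  have hFs : ∀ j, FJ (j + 1) = insert (pickG G (pr j) (2 ^ n j) (FJ j)) (FJ j) := fun j => by
    rw [hFJ]; rfl
  have hstep : ∀ j, Small M₀ (FJ j) →
      G (pr j) (2 ^ n j) (FJ j) (pickG G (pr j) (2 ^ n j) (FJ j)) := fun j hj =>
    pickG_good (hT (pr j) _ (hTpr j) _ hj)
  have hsum : ∀ j, (∀ i ∈ FJ j, M₀ ≤ i) ∧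
      ∑ k ∈ FJ j, (1 : ℝ) / k ≤ (2 - 2 / 2 ^ j) * (1 / 2 ^ n 0) := by
    intro j
    induction j with
    | zero =>
      rw [hF0]
      simp
    | succ j ih =>
      have hsm : Small M₀ (FJ j) := by
        refine ⟨ih.1, ih.2.trans ?_⟩
        have h1 : (0 : ℝ) ≤ 2 / 2 ^ j := by positivity
        have h2 : (1 : ℝ) / 2 ^ n 0 ≤ 1 / M₀ := by
          apply one_div_le_one_div_of_le
          · exact_mod_cast hM1
          · exact_mod_cast hM
        have h3 : (0 : ℝ) ≤ 1 / 2 ^ n 0 := by positivity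
        calc (2 - 2 / (2 : ℝ) ^ j) * (1 / 2 ^ n 0) ≤ 2 * (1 / 2 ^ n 0) := by
              apply mul_le_mul_of_nonneg_right _ h3
              linarith
          _ ≤ 2 * (1 / (M₀ : ℝ)) := by linarith
          _ = 2 / (M₀ : ℝ) := by ring
      have g2 := hG _ _ _ _ (hstep j hsm)
      obtain ⟨q, hq⟩ : ∃ q : ℕ, q = pickG G (pr j) (2 ^ n j) (FJ j) := ⟨_, rfl⟩
      rw [← hq] at g2
      have h2 : FJ (j + 1) = insert q (FJ j) := by rw [hFs j, hq]
      have hqM : M₀ ≤ q := (hM.trans (hmono j)).trans g2.le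
      rw [h2]
      constructor
      · intro i hi
        rcases mem_insert.1 hi with h | h
        · rw [h]; exact hqM
        · exact ih.1 i h
      · have h3 : ∑ k ∈ insert q (FJ j), (1 : ℝ) / k ≤ 1 / q + ∑ k ∈ FJ j, (1 : ℝ) / k := by
          by_cases hmem : q ∈ FJ j
          · rw [insert_eq_of_mem hmem]
            have : (0 : ℝ) ≤ 1 / q := by positivity
            linarith
          · rw [sum_insert hmem]
        have h4 : (1 : ℝ) / q ≤ 1 / 2 ^ j * (1 / 2 ^ n 0) := by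
          rw [one_div_mul_one_div, ← pow_add]
          apply one_div_le_one_div_of_le (by positivity)
          have h5 : (2 : ℝ) ^ (j + n 0) ≤ 2 ^ n j := by
            apply pow_le_pow_right₀ (by norm_num)
            have := S.add_le 0 j
            rw [zero_add] at this
            omega
          have h6 : ((2 ^ n j : ℕ) : ℝ) ≤ q := by exact_mod_cast g2.le
          push_cast at h6
          linarith
        have h5 : (2 : ℝ) / 2 ^ (j + 1) = 1 / 2 ^ j := by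
          rw [pow_succ]
          field_simp
        rw [h5]
        have h6 : (2 : ℝ) / 2 ^ j = 2 * (1 / 2 ^ j) := by ring
        have ih2 := ih.2
        rw [h6] at ih2
        have h7 : (2 - 1 / 2 ^ j) * (1 / (2 : ℝ) ^ n 0) =
            (2 - 2 * (1 / 2 ^ j)) * (1 / 2 ^ n 0) + 1 / 2 ^ j * (1 / 2 ^ n 0) := by ring
        rw [h7]
        linarith
  have hsmall : ∀ j, Small M₀ (FJ j) := fun j => by
    refine ⟨(hsum j).1, (hsum j).2.trans ?_⟩
    have h1 : (0 : ℝ) ≤ 2 / 2 ^ j := by positivity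
    have h2 : (1 : ℝ) / 2 ^ n 0 ≤ 1 / M₀ := by
      apply one_div_le_one_div_of_le
      · exact_mod_cast hM1
      · exact_mod_cast hM
    have h3 : (0 : ℝ) ≤ 1 / 2 ^ n 0 := by positivity
    calc (2 - 2 / (2 : ℝ) ^ j) * (1 / 2 ^ n 0) ≤ 2 * (1 / 2 ^ n 0) := by
          apply mul_le_mul_of_nonneg_right _ h3
          linarith
      _ ≤ 2 * (1 / (M₀ : ℝ)) := by linarith
      _ = 2 / (M₀ : ℝ) := by ring
  have hFeq : ∀ j, FJ j = (range j).image fun i => pickG G (pr i) (2 ^ n i) (FJ i) := fun j => by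
    rw [hFJ]
    exact FFG_eq G n pr j
  refine ⟨fun i => pickG G (pr i) (2 ^ n i) (FJ i), pr, ?_, fun j => ?_, fun j => ?_, fun j => ?_⟩
  · rw [hpr]
    exact (prec_tendsto T).comp hH
  · rw [← hFeq]
    exact hstep j (hsmall j)
  · rw [← hFeq]
    exact hsmall j
  · exact (hM.trans (hmono j)).trans (hG _ _ _ _ (hstep j (hsmall j))).le


end Pool.Agent.H608.Pw
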