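import Pool.Agent.H608.Pw.Stm

/-!
# PW-COMP (helper971 for helper608): expansion with bounds uniform in `n`

Weighted absolutely summable coefficient sequences (no complex analysis).
-/

set_option autoImplicit false

namespace Pool.Agent.H608.Pw

open Finset Filter Topology

namespace XC

/-- `F w = ∑ a_i w ^ i` on `[0, ρ]`, weighted norm at most `M`, `a_0 = f0`, `a_k = 0` for `1 ≤ k ≤ s`,
`a_(s+1) = f1` -/
structure Ex (s : ℕ) (ρ M : ℝ) (F : ℝ → ℝ) (f0 f1 : ℝ) (a : ℕ → ℝ) : Prop where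
  a0 : a 0 = f0
  am : ∀ k, 1 ≤ k → k ≤ s → a k = 0
  a1 : a (s + 1) = f1
  sm : Summable (fun i => |a i| * ρ ^ i)
  le : ∑' i, |a i| * ρ ^ i ≤ M
  ev : ∀ w, 0 ≤ w → w ≤ ρ → F w = ∑' i, a i * w ^ i

theorem sumw {a : ℕ → ℝ} {ρ w : ℝ} (h : Summable (fun i => |a i| * ρ ^ i)) (hw : 0 ≤ w)
    (hwρ : w ≤ ρ) : Summable (fun i => ‖a i * w ^ i‖) := by
  refine Summable.of_nonneg_of_le (fun i => norm_nonneg _) (fun i => ?_) h
  rw [norm_mul, Real.norm_eq_abs, norm_pow, Real.norm_eq_abs, abs_of_nonneg hw]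
  exact mul_le_mul_of_nonneg_left (pow_le_pow_left₀ hw hwρ i) (abs_nonneg _)

theorem Ex.nn {s : ℕ} {ρ M f0 f1 : ℝ} {F : ℝ → ℝ} {a : ℕ → ℝ} (h : Ex s ρ M F f0 f1 a)
    (hρ : 0 ≤ ρ) : 0 ≤ M :=
  (tsum_nonneg (fun i => mul_nonneg (abs_nonneg _) (pow_nonneg hρ i))).trans h.le

theorem Ex.mono {s : ℕ} {ρ M M' f0 f1 : ℝ} {F : ℝ → ℝ} {a : ℕ → ℝ} (h : Ex s ρ M F f0 f1 a)
    (hM : M ≤ M') : Ex s ρ M' F f0 f1 a :=
  ⟨h.a0, h.am, h.a1, h.sm, h.le.trans hM, h.ev⟩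

theorem ex_const (s : ℕ) (ρ r : ℝ) :
    Ex s ρ |r| (fun _ => r) r 0 (fun i => if i = 0 then r else 0) := by
  have h1 : ∀ w : ℝ, HasSum (fun i : ℕ => (if i = 0 then r else 0) * w ^ i) r := by
    intro w
    have := hasSum_single (f := fun i : ℕ => (if i = 0 then r else 0) * w ^ i) 0 (by
      intro i hi
      simp only [if_neg hi, zero_mul])
    simpa using this
  have h2 : HasSum (fun i : ℕ => |if i = 0 then r else 0| * ρ ^ i) |r| := by
    have := hasSum_single (f := fun i : ℕ => |if i = 0 then r else 0| * ρ ^ i) 0 (by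
      intro i hi
      simp only [if_neg hi, abs_zero, zero_mul])
    simpa using this
  refine ⟨by simp, ?_, by simp, h2.summable, h2.tsum_eq.le, ?_⟩
  · intro k hk _
    have : k ≠ 0 := by omega
    simp [this]
  · intro w _ _
    exact (h1 w).tsum_eq.symm

theorem Ex.add {s : ℕ} {ρ M N f0 f1 g0 g1 : ℝ} {F G : ℝ → ℝ} {a b : ℕ → ℝ} (hρ : 0 ≤ ρ)
    (h : Ex s ρ M F f0 f1 a) (h' : Ex s ρ N G g0 g1 b) :
    Ex s ρ (M + N) (fun w => F w + G w) (f0 + g0) (f1 + g1) (fun i => a i + b i) := by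
  have hle : ∀ i, |a i + b i| * ρ ^ i ≤ |a i| * ρ ^ i + |b i| * ρ ^ i := by
    intro i
    rw [← add_mul]
    exact mul_le_mul_of_nonneg_right (abs_add_le _ _) (pow_nonneg hρ i)
  have hs : Summable (fun i => |a i + b i| * ρ ^ i) :=
    Summable.of_nonneg_of_le (fun i => mul_nonneg (abs_nonneg _) (pow_nonneg hρ i)) hle
      (h.sm.add h'.sm)
  refine ⟨by simp only [h.a0, h'.a0], ?_, by simp only [h.a1, h'.a1], hs, ?_, ?_⟩
  · intro k hk hk2
    simp only [h.am k hk hk2, h'.am k hk hk2, add_zero]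
  · calc _ ≤ ∑' i, (|a i| * ρ ^ i + |b i| * ρ ^ i) := hs.tsum_le_tsum hle (h.sm.add h'.sm)
      _ = (∑' i, |a i| * ρ ^ i) + ∑' i, |b i| * ρ ^ i := h.sm.tsum_add h'.sm
      _ ≤ M + N := add_le_add h.le h'.le
  · intro w hw hwρ
    rw [h.ev w hw hwρ, h'.ev w hw hwρ,
      ← ((sumw h.sm hw hwρ).of_norm).tsum_add ((sumw h'.sm hw hwρ).of_norm)]
    refine tsum_congr (fun i => ?_)
    ring

theorem Ex.mul {s : ℕ} {ρ M N f0 f1 g0 g1 : ℝ} {F G : ℝ → ℝ} {a b : ℕ → ℝ} (hρ : 0 ≤ ρ)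
    (h : Ex s ρ M F f0 f1 a) (h' : Ex s ρ N G g0 g1 b) :
    Ex s ρ (M * N) (fun w => F w * G w) (f0 * g0) (f0 * g1 + f1 * g0)
      (fun n => ∑ kl ∈ antidiagonal n, a kl.1 * b kl.2) := by
  have hnn : ∀ (c : ℕ → ℝ) i, 0 ≤ |c i| * ρ ^ i := fun c i =>
    mul_nonneg (abs_nonneg _) (pow_nonneg hρ i)
  have hna : Summable (fun i => ‖|a i| * ρ ^ i‖) := by
    refine h.sm.congr (fun i => ?_)
    rw [Real.norm_eq_abs, abs_of_nonneg (hnn a i)]
  have hnb : Summable (fun i => ‖|b i| * ρ ^ i‖) := by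
    refine h'.sm.congr (fun i => ?_)
    rw [Real.norm_eq_abs, abs_of_nonneg (hnn b i)]
  have hS : Summable (fun n => ∑ kl ∈ antidiagonal n,
      (|a kl.1| * ρ ^ kl.1) * (|b kl.2| * ρ ^ kl.2)) :=
    (summable_norm_sum_mul_antidiagonal_of_summable_norm hna hnb).of_norm
  have hle : ∀ n, |∑ kl ∈ antidiagonal n, a kl.1 * b kl.2| * ρ ^ n ≤
      ∑ kl ∈ antidiagonal n, (|a kl.1| * ρ ^ kl.1) * (|b kl.2| * ρ ^ kl.2) := by
    intro n
    calc |∑ kl ∈ antidiagonal n, a kl.1 * b kl.2| * ρ ^ n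
        ≤ (∑ kl ∈ antidiagonal n, |a kl.1 * b kl.2|) * ρ ^ n :=
          mul_le_mul_of_nonneg_right (Finset.abs_sum_le_sum_abs _ _) (pow_nonneg hρ n)
      _ = ∑ kl ∈ antidiagonal n, (|a kl.1| * ρ ^ kl.1) * (|b kl.2| * ρ ^ kl.2) := by
          rw [Finset.sum_mul]
          refine Finset.sum_congr rfl (fun kl hkl => ?_)
          rw [HasAntidiagonal.mem_antidiagonal] at hkl
          rw [← hkl, pow_add, abs_mul]
          ring
  have hs : Summable (fun n => |∑ kl ∈ antidiagonal n, a kl.1 * b kl.2| * ρ ^ n) :=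
    Summable.of_nonneg_of_le (fun n => mul_nonneg (abs_nonneg _) (pow_nonneg hρ n)) hle hS
  refine ⟨?_, ?_, ?_, hs, ?_, ?_⟩
  · simp [h.a0, h'.a0]
  · intro k hk hk2
    refine Finset.sum_eq_zero (fun kl hkl => ?_)
    rw [HasAntidiagonal.mem_antidiagonal] at hkl
    by_cases h0 : kl.1 = 0
    · rw [h'.am kl.2 (by omega) (by omega), mul_zero]
    · rw [h.am kl.1 (by omega) (by omega), zero_mul]
  · rw [Finset.Nat.sum_antidiagonal_eq_sum_range_succ (fun i j => a i * b j) (s + 1),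
      Finset.sum_range_succ, Finset.sum_range_succ']
    have h0 : ∑ k ∈ Finset.range s, a (k + 1) * b (s + 1 - (k + 1)) = 0 := by
      refine Finset.sum_eq_zero (fun k hk => ?_)
      rw [Finset.mem_range] at hk
      rw [h.am (k + 1) (by omega) (by omega), zero_mul]
    rw [h0, h.a0, h.a1, Nat.sub_zero, Nat.sub_self, h'.a1, h'.a0]
    ring
  · calc _ ≤ ∑' n, ∑ kl ∈ antidiagonal n, (|a kl.1| * ρ ^ kl.1) * (|b kl.2| * ρ ^ kl.2) :=
          hs.tsum_le_tsum hle hS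
      _ = (∑' i, |a i| * ρ ^ i) * ∑' i, |b i| * ρ ^ i :=
          (tsum_mul_tsum_eq_tsum_sum_antidiagonal_of_summable_norm hna hnb).symm
      _ ≤ M * N := mul_le_mul h.le h'.le (tsum_nonneg (hnn b)) (h.nn hρ)
  · intro w hw hwρ
    rw [h.ev w hw hwρ, h'.ev w hw hwρ,
      tsum_mul_tsum_eq_tsum_sum_antidiagonal_of_summable_norm (sumw h.sm hw hwρ)
        (sumw h'.sm hw hwρ)]
    refine tsum_congr (fun n => ?_)
    rw [Finset.sum_mul]
    refine Finset.sum_congr rfl (fun kl hkl => ?_)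
    rw [HasAntidiagonal.mem_antidiagonal] at hkl
    rw [← hkl, pow_add]
    ring

theorem Ex.pow {s : ℕ} {ρ M f0 f1 : ℝ} {F : ℝ → ℝ} {a : ℕ → ℝ} (hρ : 0 ≤ ρ)
    (h : Ex s ρ M F f0 f1 a) (n : ℕ) :
    ∃ a', Ex s ρ (M ^ n) (fun w => F w ^ n) (f0 ^ n) (n * f0 ^ (n - 1) * f1) a' := by
  induction n with
  | zero =>
    refine ⟨fun i => if i = 0 then 1 else 0, ?_⟩
    have h1 := ex_const s ρ 1
    rw [abs_one] at h1
    simpa using h1
  | succ n ih =>
    obtain ⟨a', ha'⟩ := ih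
    refine ⟨fun n => ∑ kl ∈ antidiagonal n, a' kl.1 * a kl.2, ?_⟩
    have h1 := Ex.mul hρ ha' h
    have e1 : f0 ^ n * f1 + n * f0 ^ (n - 1) * f1 * f0 = ((n + 1 : ℕ) : ℝ) * f0 ^ (n + 1 - 1) * f1 := by
      rcases Nat.eq_zero_or_pos n with hn | hn
      · subst hn; simp
      · obtain ⟨k, rfl⟩ : ∃ k, n = k + 1 := ⟨n - 1, by omega⟩
        simp only [Nat.add_sub_cancel]
        push_cast
        ring
    rw [e1] at h1
    simpa only [pow_succ] using h1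

theorem ex_poly (Q : Polynomial ℝ) (R : ℝ) : ∃ MQ : ℝ, 0 ≤ MQ ∧
    ∀ (s : ℕ) (ρ M : ℝ) (F : ℝ → ℝ) (c f1 : ℝ) (a : ℕ → ℝ), 0 ≤ ρ → Ex s ρ M F c f1 a → M ≤ R →
      ∃ a', Ex s ρ MQ (fun w => Q.eval (F w)) (Q.eval c) (Q.derivative.eval c * f1) a' := by
  induction Q using Polynomial.induction_on with
  | C r =>
    refine ⟨|r|, abs_nonneg _, ?_⟩
    intro s ρ M F c f1 a hρ h hM
    refine ⟨fun i => if i = 0 then r else 0, ?_⟩
    have h1 := ex_const s ρ r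
    simpa using h1
  | add p q hp hq =>
    obtain ⟨M1, h10, h1⟩ := hp
    obtain ⟨M2, h20, h2⟩ := hq
    refine ⟨M1 + M2, by linarith, ?_⟩
    intro s ρ M F c f1 a hρ h hM
    obtain ⟨a1, ha1⟩ := h1 s ρ M F c f1 a hρ h hM
    obtain ⟨a2, ha2⟩ := h2 s ρ M F c f1 a hρ h hM
    refine ⟨fun i => a1 i + a2 i, ?_⟩
    have h3 := Ex.add hρ ha1 ha2
    rw [← add_mul] at h3
    simpa using h3
  | monomial n r hr =>
    obtain ⟨M1, h10, h1⟩ := hr
    refine ⟨M1 * |R|, by positivity, ?_⟩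
    intro s ρ M F c f1 a hρ h hM
    obtain ⟨a1, ha1⟩ := h1 s ρ M F c f1 a hρ h hM
    refine ⟨fun n => ∑ kl ∈ antidiagonal n, a1 kl.1 * a kl.2, ?_⟩
    have h3 := Ex.mul hρ ha1 (h.mono (hM.trans (le_abs_self R)))
    have e1 : Polynomial.C r * Polynomial.X ^ (n + 1) =
        (Polynomial.C r * Polynomial.X ^ n) * Polynomial.X := by ring
    have e2 : ∀ p : Polynomial ℝ, Polynomial.eval c p * f1 +
        Polynomial.eval c (Polynomial.derivative p) * f1 * c =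
        Polynomial.eval c (Polynomial.derivative (p * Polynomial.X)) * f1 := by
      intro p
      rw [Polynomial.derivative_mul, Polynomial.derivative_X, Polynomial.eval_add,
        Polynomial.eval_mul, Polynomial.eval_mul, Polynomial.eval_X, Polynomial.eval_one]
      ring
    rw [e1, ← e2]
    simpa only [Polynomial.eval_mul_X] using h3

/-- split a sum at `s + 1` -/
theorem split (s : ℕ) (f : ℕ → ℝ) (h : ∀ k, 1 ≤ k → k ≤ s → f k = 0) (hs : Summable f) :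
    ∑' k, f k = f 0 + ∑' i, f (s + 1 + i) := by
  rw [← hs.sum_add_tsum_nat_add (s + 1), Finset.sum_range_succ']
  have h0 : ∑ k ∈ Finset.range s, f (k + 1) = 0 :=
    Finset.sum_eq_zero (fun k hk => by
      rw [Finset.mem_range] at hk
      exact h (k + 1) (by omega) (by omega))
  rw [h0, zero_add]
  congr 1
  refine tsum_congr (fun i => ?_)
  rw [add_comm i (s + 1)]

theorem base (s : ℕ) (ρ K D c : ℝ) (b : ℕ → ℝ) (hρ : 0 ≤ ρ) (hρ1 : ρ ≤ 1) (hK : 0 ≤ K)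
    (hD : 0 ≤ D) (hDρ : D * ρ ≤ 1 / 2) (hc : 0 ≤ c) (hb : ∀ i, |b i| ≤ K * D ^ i) :
    ∃ a, Ex s ρ (c + 2 * K * ρ) (fun w => c + ∑' i, b i * w ^ (s + 1 + i)) c (b 0) a := by
  obtain ⟨a, ha⟩ : ∃ a : ℕ → ℝ, a = fun k =>
    if k = 0 then c else if k ≤ s then 0 else b (k - (s + 1)) := ⟨_, rfl⟩
  have ha0 : a 0 = c := by rw [ha]; simp
  have ham : ∀ k, 1 ≤ k → k ≤ s → a k = 0 := by
    intro k h1 h2
    have h3 : k ≠ 0 := by omega
    rw [ha]
    simp [h3, h2]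
  have hab : ∀ i, a (s + 1 + i) = b i := by
    intro i
    have h3 : s + 1 + i ≠ 0 := by omega
    have h4 : ¬ (s + 1 + i ≤ s) := by omega
    have h5 : s + 1 + i - (s + 1) = i := by omega
    rw [ha]
    simp only [if_neg h3, if_neg h4, h5]
  have hDρ0 : 0 ≤ D * ρ := mul_nonneg hD hρ
  have hgeo : HasSum (fun i : ℕ => (D * ρ) ^ i) (1 - D * ρ)⁻¹ :=
    hasSum_geometric_of_lt_one hDρ0 (by linarith)
  have hle : ∀ i, |b i| * ρ ^ (s + 1 + i) ≤ K * ρ * (D * ρ) ^ i := by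
    intro i
    have h1 : ρ ^ (s + 1 + i) ≤ ρ * ρ ^ i := by
      have h2 : ρ ^ (s + 1 + i) = ρ ^ s * (ρ * ρ ^ i) := by ring
      rw [h2]
      have h3 : ρ ^ s ≤ 1 := pow_le_one₀ hρ hρ1
      have h4 : 0 ≤ ρ * ρ ^ i := by positivity
      nlinarith
    calc |b i| * ρ ^ (s + 1 + i) ≤ (K * D ^ i) * (ρ * ρ ^ i) :=
          mul_le_mul (hb i) h1 (pow_nonneg hρ _) (by positivity)
      _ = K * ρ * (D * ρ) ^ i := by rw [mul_pow]; ring
  have hsb : Summable (fun i => |b i| * ρ ^ (s + 1 + i)) :=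
    Summable.of_nonneg_of_le (fun i => by positivity) hle (hgeo.summable.mul_left _)
  have hsm : Summable (fun k => |a k| * ρ ^ k) := by
    rw [← summable_nat_add_iff (s + 1)]
    refine hsb.congr (fun i => ?_)
    rw [add_comm i (s + 1), hab]
  refine ⟨a, ha0, ham, ?_, hsm, ?_, ?_⟩
  · have := hab 0
    simpa using this
  · rw [split s (fun k => |a k| * ρ ^ k) (fun k h1 h2 => by simp only [ham k h1 h2, abs_zero, zero_mul])
      hsm]
    simp only [ha0, hab, pow_zero, mul_one, abs_of_nonneg hc]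
    have h1 : ∑' i, |b i| * ρ ^ (s + 1 + i) ≤ K * ρ * (1 - D * ρ)⁻¹ := by
      rw [← (hgeo.mul_left (K * ρ)).tsum_eq]
      exact hsb.tsum_le_tsum hle (hgeo.summable.mul_left _)
    have h2 : (1 - D * ρ)⁻¹ ≤ 2 := by
      rw [inv_le_comm₀ (by linarith) (by norm_num)]
      linarith
    have h3 : K * ρ * (1 - D * ρ)⁻¹ ≤ K * ρ * 2 :=
      mul_le_mul_of_nonneg_left h2 (mul_nonneg hK hρ)
    linarith
  · intro w hw hwρ
    have hsw := (sumw hsm hw hwρ).of_norm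
    rw [split s (fun k => a k * w ^ k) (fun k h1 h2 => by simp only [ham k h1 h2, zero_mul]) hsw]
    simp only [ha0, hab, pow_zero, mul_one]

end XC

theorem comp : S_comp := by
  intro s η K D Q hη hK hD
  obtain ⟨MQ, hMQ0, hMQ⟩ := XC.ex_poly Q (1 / η + 1)
  obtain ⟨B, hB⟩ : ∃ B : ℝ, B = 2 * (D + K + 1) * (1 + 3 * MQ) := ⟨_, rfl⟩
  have hA : 2 * (D + K + 1) ≤ B := by
    rw [hB]
    have : 0 ≤ 2 * (D + K + 1) * (3 * MQ) := by positivity
    linarith [this, show 2 * (D + K + 1) * (1 + 3 * MQ) = 2 * (D + K + 1) + 2 * (D + K + 1) * (3 * MQ) by ring]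
  refine ⟨B, by linarith, ?_⟩
  intro c b n hc1 hc2 hb hn
  have hn0 : (0:ℝ) < n := by exact_mod_cast hn
  have hn1 : (1:ℝ) ≤ n := by exact_mod_cast hn
  have hc0 : 0 ≤ c := by linarith
  obtain ⟨ρ, hρ⟩ : ∃ ρ : ℝ, ρ = 1 / (2 * (D + K + 1) * n) := ⟨_, rfl⟩
  have hden : 0 < 2 * (D + K + 1) * n := by positivity
  have hρ0 : 0 < ρ := by rw [hρ]; positivity
  have hden2 : 2 * (D + K + 1) ≤ 2 * (D + K + 1) * n := by nlinarith
  have hρ1 : ρ ≤ 1 := by
    rw [hρ, div_le_one hden]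
    linarith
  have hDρ : D * ρ ≤ 1 / 2 := by
    rw [hρ, mul_one_div, div_le_div_iff₀ hden (by norm_num)]
    linarith
  have hKρ : 2 * K * ρ ≤ 1 / n := by
    rw [hρ, mul_one_div, div_le_div_iff₀ hden hn0]
    nlinarith
  obtain ⟨a, ha⟩ := XC.base s ρ K D c b hρ0.le hρ1 hK hD hDρ hc0 hb
  have hM1 : c + 2 * K * ρ ≤ c + 1 / n := by linarith
  have ha2 := ha.mono hM1
  have hn2 : 1 / (n:ℝ) ≤ 1 := by rw [div_le_one hn0]; exact hn1
  obtain ⟨a1, ha1⟩ := hMQ s ρ (c + 1 / n) _ c (b 0) a hρ0.le ha2 (by linarith)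
  obtain ⟨a3, ha3⟩ := XC.Ex.pow hρ0.le ha2 n
  have hP := XC.Ex.mul hρ0.le ha1 ha3
  obtain ⟨A, hAdef⟩ : ∃ A : ℕ → ℝ, A = fun n => ∑ kl ∈ antidiagonal n, a1 kl.1 * a3 kl.2 :=
    ⟨_, rfl⟩
  rw [← hAdef] at hP
  have hpow : (c + 1 / n) ^ n ≤ 3 * c ^ n := by
    have h1 : c + 1 / n ≤ c * Real.exp (1 / n) := by
      have h2 : 1 / (n:ℝ) + 1 ≤ Real.exp (1 / n) := Real.add_one_le_exp _
      have h3 : 0 < 1 / (n:ℝ) := by positivity
      have h4 : c * (1 / n + 1) ≤ c * Real.exp (1 / n) := mul_le_mul_of_nonneg_left h2 hc0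
      nlinarith
    calc (c + 1 / n) ^ n ≤ (c * Real.exp (1 / n)) ^ n :=
          pow_le_pow_left₀ (by positivity) h1 n
      _ = c ^ n * Real.exp 1 := by
          rw [mul_pow, ← Real.exp_nat_mul]
          congr 2
          field_simp
      _ ≤ c ^ n * 3 := by
          apply mul_le_mul_of_nonneg_left _ (pow_nonneg hc0 n)
          have := Real.exp_one_lt_d9
          linarith
      _ = 3 * c ^ n := by ring
  have hbound : ∀ k, |A k| * ρ ^ k ≤ MQ * (3 * c ^ n) := by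
    intro k
    calc |A k| * ρ ^ k ≤ ∑' i, |A i| * ρ ^ i :=
          hP.sm.le_tsum k (fun j _ => mul_nonneg (abs_nonneg _) (pow_nonneg hρ0.le j))
      _ ≤ MQ * (c + 1 / n) ^ n := hP.le
      _ ≤ MQ * (3 * c ^ n) := mul_le_mul_of_nonneg_left hpow hMQ0
  refine ⟨fun i => A (s + 1 + i), ?_, ?_, ?_⟩
  · simp only [add_zero]
    rw [hP.a1]
    ring
  · intro i
    simp only
    have h1 := hbound (s + 1 + i)
    have h2 : |A (s + 1 + i)| ≤ MQ * (3 * c ^ n) * (2 * (D + K + 1) * n) ^ (s + 1 + i) := by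
      have h3 : ρ ^ (s + 1 + i) = 1 / (2 * (D + K + 1) * n) ^ (s + 1 + i) := by
        rw [hρ, one_div_pow]
      rw [h3, mul_one_div, div_le_iff₀ (by positivity)] at h1
      exact h1
    have h4 : 3 * MQ ≤ (1 + 3 * MQ) ^ (s + 1 + i) := by
      have h5 : (1 + 3 * MQ) ^ 1 ≤ (1 + 3 * MQ) ^ (s + 1 + i) :=
        pow_le_pow_right₀ (by linarith) (by omega)
      linarith
    calc |A (s + 1 + i)| ≤ MQ * (3 * c ^ n) * (2 * (D + K + 1) * n) ^ (s + 1 + i) := h2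
      _ = c ^ n * (3 * MQ) * (2 * (D + K + 1) * n) ^ (s + 1 + i) := by ring
      _ ≤ c ^ n * (1 + 3 * MQ) ^ (s + 1 + i) * (2 * (D + K + 1) * n) ^ (s + 1 + i) := by
          apply mul_le_mul_of_nonneg_right _ (by positivity)
          exact mul_le_mul_of_nonneg_left h4 (pow_nonneg hc0 n)
      _ = c ^ n * (B * n) ^ (s + 1 + i) := by
          rw [mul_assoc, ← mul_pow, hB]
          ring
  · intro t ht
    have hBn : 2 * (D + K + 1) * n ≤ B * n := mul_le_mul_of_nonneg_right hA hn0.le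
    have ht0 : 0 < t := by linarith
    have hw : 1 / t ≤ ρ := by
      rw [hρ]
      exact one_div_le_one_div_of_le hden (by linarith)
    have hw0 : 0 ≤ 1 / t := by positivity
    have hser : ∀ b : ℕ → ℝ, ser s b t = ∑' i, b i * (1 / t) ^ (s + 1 + i) := by
      intro b
      unfold ser
      refine tsum_congr (fun i => ?_)
      rw [one_div_pow, mul_one_div]
    have h1 := hP.ev (1 / t) hw0 hw
    rw [hser b, hser, h1, XC.split s (fun k => A k * (1 / t) ^ k)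
      (fun k h1 h2 => by simp only [hP.am k h1 h2, zero_mul]) (XC.sumw hP.sm hw0 hw).of_norm]
    simp only [hP.a0, pow_zero, mul_one]

end Pool.Agent.H608.Pw
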