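import Pool.Agent.H608.Pw.Stm

/-!
# Few integers have large Weyl sums (second moment)
-/

set_option autoImplicit false

namespace Pool.Agent.H608.Pw

open Finset Filter Topology

lemma cnt_norm_e (x : ℝ) : ‖e x‖ = 1 := Complex.norm_exp_ofReal_mul_I _

lemma cnt_e_conj (x : ℝ) : (starRingEnd ℂ) (e x) = e (-x) := by
  unfold e
  rw [← Complex.exp_conj, map_mul, Complex.conj_ofReal, Complex.conj_I]
  congr 1
  push_cast
  ring

lemma cnt_e_mul (x y : ℝ) : e x * (starRingEnd ℂ) (e y) = e (x - y) := by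
  rw [cnt_e_conj]
  unfold e
  rw [← Complex.exp_add]
  congr 1
  push_cast
  ring

lemma cnt_norm_sum_e {ι : Type*} (s : Finset ι) (f : ι → ℝ) : ‖∑ i ∈ s, e (f i)‖ ≤ s.card := by
  refine (norm_sum_le _ _).trans ?_
  rw [Finset.sum_congr rfl fun i _ => cnt_norm_e (f i)]
  simp

/-- the second moment -/
lemma cnt_second (M s : Finset ℕ) (θ : ℕ → ℕ → ℝ) :
    ∑ m ∈ M, ‖∑ n ∈ s, e (θ n m)‖ ^ 2 ≤
      ∑ n ∈ s, ∑ n' ∈ s, ‖∑ m ∈ M, e (θ n m - θ n' m)‖ := by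
  have h1 : ((∑ m ∈ M, ‖∑ n ∈ s, e (θ n m)‖ ^ 2 : ℝ) : ℂ) =
      ∑ n ∈ s, ∑ n' ∈ s, ∑ m ∈ M, e (θ n m - θ n' m) := by
    have h2 : ∀ m, ((‖∑ n ∈ s, e (θ n m)‖ ^ 2 : ℝ) : ℂ) =
        ∑ n ∈ s, ∑ n' ∈ s, e (θ n m - θ n' m) := by
      intro m
      have h3 : ((‖∑ n ∈ s, e (θ n m)‖ ^ 2 : ℝ) : ℂ) =
          (∑ n ∈ s, e (θ n m)) * (starRingEnd ℂ) (∑ n ∈ s, e (θ n m)) := by
        rw [Complex.mul_conj, Complex.normSq_eq_norm_sq]
      rw [h3, map_sum, Finset.sum_mul_sum]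
      exact Finset.sum_congr rfl fun n _ => Finset.sum_congr rfl fun n' _ => cnt_e_mul _ _
    rw [Complex.ofReal_sum, Finset.sum_congr rfl fun m _ => h2 m, Finset.sum_comm]
    refine Finset.sum_congr rfl fun n _ => ?_
    rw [Finset.sum_comm]
  have h4 : 0 ≤ ∑ m ∈ M, ‖∑ n ∈ s, e (θ n m)‖ ^ 2 := Finset.sum_nonneg fun m _ => by positivity
  have h5 : ∑ m ∈ M, ‖∑ n ∈ s, e (θ n m)‖ ^ 2 =
      ‖∑ n ∈ s, ∑ n' ∈ s, ∑ m ∈ M, e (θ n m - θ n' m)‖ := by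
    rw [← h1, Complex.norm_real, Real.norm_of_nonneg h4]
  rw [h5]
  refine (norm_sum_le _ _).trans (Finset.sum_le_sum fun n _ => norm_sum_le _ _)

/-- the second moment under the hypothesis -/
lemma cnt_second' (H a N : ℕ) (θ : ℕ → ℕ → ℝ) (ε : ℝ) (hε : 0 ≤ ε) (hN : N * ε ≤ 1)
    (h : ∀ n n' : ℕ, a ≤ n' → n' < n → n < N →
      ‖∑ m ∈ Ioc H (2 * H), e (θ n m - θ n' m)‖ ≤ H * ε) :
    ∑ m ∈ Ioc H (2 * H), ‖∑ n ∈ Ico a N, e (θ n m)‖ ^ 2 ≤ 2 * H * N := by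
  have hcard : ((Ioc H (2 * H)).card : ℝ) = H := by
    rw [Nat.card_Ioc]
    have : 2 * H - H = H := by omega
    rw [this]
  have hterm : ∀ n ∈ Ico a N, ∀ n' ∈ Ico a N, ‖∑ m ∈ Ioc H (2 * H), e (θ n m - θ n' m)‖ ≤
      (if n = n' then (H : ℝ) else 0) + H * ε := by
    intro n hn n' hn'
    rw [Finset.mem_Ico] at hn hn'
    have hHε : 0 ≤ (H : ℝ) * ε := by positivity
    rcases Nat.lt_trichotomy n n' with h1 | h1 | h1
    · have h2 := h n' n hn.1 h1 hn'.2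
      have h3 : ∑ m ∈ Ioc H (2 * H), e (θ n m - θ n' m) =
          (starRingEnd ℂ) (∑ m ∈ Ioc H (2 * H), e (θ n' m - θ n m)) := by
        rw [map_sum]
        refine Finset.sum_congr rfl fun m _ => ?_
        rw [cnt_e_conj, neg_sub]
      rw [h3, RCLike.norm_conj, if_neg (by omega)]
      linarith
    · rw [if_pos h1]
      have h2 := cnt_norm_sum_e (Ioc H (2 * H)) (fun m => θ n m - θ n' m)
      rw [hcard] at h2
      linarith
    · have h2 := h n n' hn'.1 h1 hn.2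
      rw [if_neg (by omega)]
      linarith
  refine (cnt_second (Ioc H (2 * H)) (Ico a N) θ).trans ?_
  have h1 : ∑ n ∈ Ico a N, ∑ n' ∈ Ico a N, ‖∑ m ∈ Ioc H (2 * H), e (θ n m - θ n' m)‖ ≤
      ∑ n ∈ Ico a N, ((H : ℝ) + (Ico a N).card * (H * ε)) := by
    refine Finset.sum_le_sum fun n hn => ?_
    refine (Finset.sum_le_sum fun n' hn' => hterm n hn n' hn').trans ?_
    rw [Finset.sum_add_distrib, Finset.sum_ite_eq, if_pos hn, Finset.sum_const, nsmul_eq_mul]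
  refine h1.trans ?_
  rw [Finset.sum_const, nsmul_eq_mul]
  have hc : ((Ico a N).card : ℝ) ≤ N := by
    rw [Nat.card_Ico]
    exact_mod_cast Nat.sub_le _ _
  have hc0 : (0 : ℝ) ≤ ((Ico a N).card : ℝ) := by positivity
  have h2 : ((Ico a N).card : ℝ) * (H * ε) ≤ H := by
    calc ((Ico a N).card : ℝ) * (H * ε) ≤ N * (H * ε) := by gcongr
      _ = H * (N * ε) := by ring
      _ ≤ H * 1 := by gcongr
      _ = H := mul_one _
  have hH0 : (0 : ℝ) ≤ H := by positivity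
  calc ((Ico a N).card : ℝ) * ((H : ℝ) + (Ico a N).card * (H * ε)) ≤ N * (H + H) := by
        gcongr
    _ = 2 * H * N := by ring

/-- bad integers for one `N` -/
lemma cnt_markov (H a N : ℕ) (θ : ℕ → ℕ → ℝ) (δ : ℝ) (hδ : 0 < δ) (ha : 0 < a) (haN : a ≤ N)
    (h : ∑ m ∈ Ioc H (2 * H), ‖∑ n ∈ Ico a N, e (θ n m)‖ ^ 2 ≤ 2 * H * N) :
    (((Ioc H (2 * H)).filter fun m => δ * N / 2 < ‖∑ n ∈ Ico a N, e (θ n m)‖).card : ℝ) ≤
      8 * H / (δ ^ 2 * a) := by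
  have ha0 : (0 : ℝ) < a := by exact_mod_cast ha
  have haN' : (a : ℝ) ≤ N := by exact_mod_cast haN
  have hN0 : (0 : ℝ) < N := by linarith
  have h1 : (((Ioc H (2 * H)).filter fun m => δ * N / 2 < ‖∑ n ∈ Ico a N, e (θ n m)‖).card : ℝ) *
      (δ * N / 2) ^ 2 ≤ 2 * H * N := by
    refine le_trans ?_ h
    rw [← nsmul_eq_mul, ← Finset.sum_const]
    refine (Finset.sum_le_sum fun m hm => ?_).trans
      (Finset.sum_le_sum_of_subset_of_nonneg (Finset.filter_subset _ _) fun m _ _ => by positivity)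
    rw [Finset.mem_filter] at hm
    exact pow_le_pow_left₀ (by positivity) hm.2.le 2
  rw [le_div_iff₀ (by positivity)]
  set c : ℝ := (((Ioc H (2 * H)).filter fun m => δ * N / 2 < ‖∑ n ∈ Ico a N, e (θ n m)‖).card : ℝ)
  have hc0 : 0 ≤ c := by positivity
  have h2 : (c * (δ ^ 2 * N)) * N ≤ (8 * H) * N := by nlinarith
  have h3 := le_of_mul_le_mul_right h2 hN0
  refine le_trans ?_ h3
  gcongr

lemma cnt_large (γ δ κ : ℝ) (hγ : 0 < γ) (hγ1 : γ ≤ 1 / 20) (hδ : 0 < δ) (hκ : 0 < κ) :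
    ∀ᶠ y : ℝ in atTop, 1 ≤ y ∧ y ^ (1 + γ / 2) * Real.exp (-(2 * y ^ (1 - 3 * γ))) ≤ 1 ∧
      2 / (δ * κ) ≤ y ∧
      ((4 / δ + 1) * (8 / δ ^ 2) / κ ^ 2) * y ^ (-(1 / 2 - γ / 2)) ≤ 1 := by
  have h1 := (isLittleO_log_rpow_atTop (show 0 < 1 - 3 * γ by linarith)).def (c := 1) one_pos
  have h2 : Tendsto (fun y : ℝ => ((4 / δ + 1) * (8 / δ ^ 2) / κ ^ 2) * y ^ (-(1 / 2 - γ / 2)))
      atTop (𝓝 (((4 / δ + 1) * (8 / δ ^ 2) / κ ^ 2) * 0)) :=
    (tendsto_rpow_neg_atTop (show 0 < 1 / 2 - γ / 2 by linarith)).const_mul _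
  rw [mul_zero] at h2
  filter_upwards [h1, h2.eventually_le_const one_pos, eventually_ge_atTop 1,
    eventually_ge_atTop (2 / (δ * κ))] with y h1 h2 h3 h4
  refine ⟨h3, ?_, h4, h2⟩
  have hy0 : 0 < y := by linarith
  rw [Real.rpow_def_of_pos hy0, ← Real.exp_add]
  rw [Real.norm_of_nonneg (Real.log_nonneg h3), Real.norm_of_nonneg (by positivity), one_mul] at h1
  have h5 := Real.log_nonneg h3
  apply Real.exp_le_one_iff.2
  nlinarith

theorem count : S_count := by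
  intro γ δ κ hγ hγ1 hδ hκ
  obtain ⟨y₀, hy₀⟩ := eventually_atTop.1 (cnt_large γ δ κ hγ hγ1 hδ hκ)
  refine ⟨y₀, fun H a θ hyH hκa hθ => ?_⟩
  obtain ⟨hy1, hyε, hyδ, hyC⟩ := hy₀ _ hyH
  set y : ℝ := Real.log H with hy
  set Y : ℝ := y ^ (1 + γ / 2) with hY
  have hy0 : 0 < y := by linarith
  have hY0 : 0 < Y := by positivity
  have ha0 : (0 : ℝ) < a := lt_of_lt_of_le (by positivity) hκa
  have ha : 0 < a := by exact_mod_cast ha0
  have hRHS : 0 ≤ (H : ℝ) * y ^ (-(1 / 2) : ℝ) := by positivity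
  set ε : ℝ := Real.exp (-(2 * y ^ (1 - 3 * γ))) with hε
  have hε0 : 0 ≤ ε := (Real.exp_pos _).le
  by_cases hYa : Y < a
  · have h1 : {m : ℕ | H < m ∧ m ≤ 2 * H ∧ ∃ N : ℕ, a ≤ N ∧ (N : ℝ) ≤ Y ∧
        δ * N < ‖∑ n ∈ Ico a N, e (θ n m)‖} = ∅ := by
      ext m
      simp only [Set.mem_ofPred_eq, Set.mem_empty_iff_false, iff_false]
      rintro ⟨-, -, N, h1, h2, -⟩
      have : (a : ℝ) ≤ N := by exact_mod_cast h1
      linarith
    rw [h1, Set.ncard_empty]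
    simpa using hRHS
  push Not at hYa
  -- the window
  have hδa : 1 ≤ δ * a / 2 := by
    rw [div_le_iff₀ (by positivity)] at hyδ
    have : δ * (κ * y) ≤ δ * a := mul_le_mul_of_nonneg_left hκa hδ.le
    nlinarith
  set w : ℕ := ⌊δ * a / 2⌋₊ with hw
  have hw1 : 1 ≤ w := Nat.le_floor (by exact_mod_cast hδa)
  have hw1' : (1 : ℝ) ≤ w := by exact_mod_cast hw1
  have hwle : (w : ℝ) ≤ δ * a / 2 := Nat.floor_le (by positivity)
  have hwge : δ * a / 4 ≤ w := by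
    have := Nat.lt_floor_add_one (δ * a / 2)
    rw [← hw] at this
    linarith
  set T : ℕ := ⌊4 * Y / (δ * a)⌋₊ + 1 with hT
  have hTle : (T : ℝ) ≤ (4 / δ + 1) * (Y / a) := by
    have h1 : (⌊4 * Y / (δ * a)⌋₊ : ℝ) ≤ 4 * Y / (δ * a) := Nat.floor_le (by positivity)
    have h2 : 1 ≤ Y / a := by rw [le_div_iff₀ ha0]; linarith
    have h3 : (4 / δ + 1) * (Y / a) = 4 * Y / (δ * a) + Y / a := by
      field_simp
    rw [h3, hT]
    push_cast
    linarith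
  set Bad : ℕ → Finset ℕ := fun t => (Ioc H (2 * H)).filter fun m =>
    δ * ((a + t * w : ℕ) : ℝ) / 2 < ‖∑ n ∈ Ico a (a + t * w), e (θ n m)‖ with hBad
  set I : Finset ℕ := (range T).filter fun t => ((a + t * w : ℕ) : ℝ) ≤ Y with hI
  have hsub : {m : ℕ | H < m ∧ m ≤ 2 * H ∧ ∃ N : ℕ, a ≤ N ∧ (N : ℝ) ≤ Y ∧
      δ * N < ‖∑ n ∈ Ico a N, e (θ n m)‖} ⊆ ((I.biUnion Bad : Finset ℕ) : Set ℕ) := by
    rintro m ⟨hm1, hm2, N, hN1, hN2, hN3⟩
    have hN1' : (a : ℝ) ≤ N := by exact_mod_cast hN1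
    set t : ℕ := (N - a) / w with ht
    have ht1 : t * w ≤ N - a := Nat.div_mul_le_self _ _
    have ht2 : N - a < t * w + w := by
      have := Nat.lt_div_mul_add (a := N - a) (b := w) (by omega)
      exact this
    have hle : a + t * w ≤ N := by omega
    have hle' : ((a + t * w : ℕ) : ℝ) ≤ N := by exact_mod_cast hle
    have htT : t < T := by
      have h1 : (t : ℝ) * w ≤ Y := by
        have : ((t * w : ℕ) : ℝ) ≤ N := by exact_mod_cast (show t * w ≤ N by omega)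
        push_cast at this
        linarith
      have h2 : (t : ℝ) ≤ 4 * Y / (δ * a) := by
        rw [le_div_iff₀ (by positivity)]
        have h3 : (t : ℝ) * (δ * a / 4) ≤ t * w := by gcongr
        linarith
      have h3 : t ≤ ⌊4 * Y / (δ * a)⌋₊ := Nat.le_floor h2
      omega
    rw [Finset.mem_coe, Finset.mem_biUnion]
    refine ⟨t, ?_, ?_⟩
    · rw [hI, Finset.mem_filter, Finset.mem_range]
      exact ⟨htT, by linarith⟩
    · rw [hBad, Finset.mem_filter, Finset.mem_Ioc]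
      refine ⟨⟨hm1, hm2⟩, ?_⟩
      have h1 : (∑ n ∈ Ico a (a + t * w), e (θ n m)) + ∑ n ∈ Ico (a + t * w) N, e (θ n m) =
          ∑ n ∈ Ico a N, e (θ n m) := Finset.sum_Ico_consecutive _ (by omega) hle
      have h2 : ‖∑ n ∈ Ico (a + t * w) N, e (θ n m)‖ ≤ w := by
        refine (cnt_norm_sum_e _ _).trans ?_
        rw [Nat.card_Ico]
        exact_mod_cast (show N - (a + t * w) ≤ w by omega)
      have h3 := norm_add_le (∑ n ∈ Ico a (a + t * w), e (θ n m)) (∑ n ∈ Ico (a + t * w) N, e (θ n m))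
      rw [h1] at h3
      have h4 : δ * a ≤ δ * N := mul_le_mul_of_nonneg_left hN1' hδ.le
      have h5 : δ * ((a + t * w : ℕ) : ℝ) ≤ δ * N := mul_le_mul_of_nonneg_left hle' hδ.le
      linarith
  have hcardI : (I.card : ℝ) ≤ T := by
    have h1 : I.card ≤ (range T).card := Finset.card_filter_le _ _
    rw [Finset.card_range] at h1
    exact_mod_cast h1
  have hBadcard : ∀ t ∈ I, ((Bad t).card : ℝ) ≤ 8 * H / (δ ^ 2 * a) := by
    intro t ht
    rw [hI, Finset.mem_filter] at ht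
    apply cnt_markov H a (a + t * w) θ δ hδ ha (by omega)
    apply cnt_second' H a (a + t * w) θ ε hε0
    · calc ((a + t * w : ℕ) : ℝ) * ε ≤ Y * ε := mul_le_mul_of_nonneg_right ht.2 hε0
        _ ≤ 1 := hyε
    · intro n n' h1 h2 h3
      apply hθ n n' h1 h2
      have h4 : (n : ℝ) ≤ ((a + t * w : ℕ) : ℝ) := by exact_mod_cast h3.le
      linarith [ht.2]
  have h1 : (({m : ℕ | H < m ∧ m ≤ 2 * H ∧ ∃ N : ℕ, a ≤ N ∧ (N : ℝ) ≤ Y ∧
      δ * N < ‖∑ n ∈ Ico a N, e (θ n m)‖}.ncard : ℕ) : ℝ) ≤ ((I.biUnion Bad).card : ℝ) := by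
    have h2 := Set.ncard_le_ncard hsub (Finset.finite_toSet _)
    rw [Set.ncard_coe_finset] at h2
    exact_mod_cast h2
  refine h1.trans ?_
  have h2 : ((I.biUnion Bad).card : ℝ) ≤ ∑ t ∈ I, ((Bad t).card : ℝ) := by
    exact_mod_cast Finset.card_biUnion_le
  refine h2.trans ((Finset.sum_le_sum hBadcard).trans ?_)
  rw [Finset.sum_const, nsmul_eq_mul]
  have h3 : (I.card : ℝ) * (8 * H / (δ ^ 2 * a)) ≤ (4 / δ + 1) * (Y / a) * (8 * H / (δ ^ 2 * a)) := by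
    apply mul_le_mul_of_nonneg_right (hcardI.trans hTle) (by positivity)
  refine h3.trans ?_
  have h4 : (4 / δ + 1) * (Y / a) * (8 * H / (δ ^ 2 * a)) =
      H * (((4 / δ + 1) * (8 / δ ^ 2)) * (Y / (a : ℝ) ^ 2)) := by
    field_simp
  rw [h4]
  apply mul_le_mul_of_nonneg_left _ (by positivity)
  have h5 : Y / (a : ℝ) ^ 2 ≤ Y / (κ * y) ^ 2 := by
    gcongr
  have h6 : Y / (κ * y) ^ 2 = 1 / κ ^ 2 * (y ^ (-(1 / 2 - γ / 2)) * y ^ (-(1 / 2) : ℝ)) := by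
    have h7 : y ^ (-(1 / 2 - γ / 2)) * y ^ (-(1 / 2) : ℝ) = Y / y ^ 2 := by
      rw [← Real.rpow_add hy0, hY, eq_div_iff (by positivity), ← Real.rpow_natCast,
        ← Real.rpow_add hy0]
      congr 1
      push_cast
      ring
    rw [h7]
    field_simp
  calc (4 / δ + 1) * (8 / δ ^ 2) * (Y / (a : ℝ) ^ 2)
      ≤ (4 / δ + 1) * (8 / δ ^ 2) * (Y / (κ * y) ^ 2) := by gcongr
    _ = (((4 / δ + 1) * (8 / δ ^ 2) / κ ^ 2) * y ^ (-(1 / 2 - γ / 2))) * y ^ (-(1 / 2) : ℝ) := by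
        rw [h6]; ring
    _ ≤ 1 * y ^ (-(1 / 2) : ℝ) := by
        apply mul_le_mul_of_nonneg_right hyC (by positivity)
    _ = y ^ (-(1 / 2) : ℝ) := one_mul _

end Pool.Agent.H608.Pw
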