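import Mathlib

/-!
# Statements for the powers of numbers with few omitted terms (helper608, project PW)

Goal: for the numbers `X = π_E`, `e_E` (few omitted terms) and polynomials `Q`, `Q (X) X ^ n` is equidistributed modulo 1.
-/

set_option autoImplicit false

namespace Pool.Agent.H608.Pw

open Finset Filter Topology

/-- `e (x) = exp (2 π i x)` -/
noncomputable def e (x : ℝ) : ℂ := Complex.exp (((2 * Real.pi * x : ℝ) : ℂ) * Complex.I)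

/-- the series `∑ b_i / t ^ (s + 1 + i)` -/
noncomputable def ser (s : ℕ) (b : ℕ → ℝ) (t : ℝ) : ℝ := ∑' i, b i / t ^ (s + 1 + i)

/-- PW-COMP. **Expansion of `Q (c + ser) (c + ser) ^ n` in powers of `1 / t`, with bounds uniform in `n`.**
Proof. Let `g (w) = ∑ b_i w ^ (s + 1 + i)` for complex `w`, `|w| < 1 / D`. Put `ρ = 1 / (2 (D + K + 1) n)`. For `|w| ≤ ρ` we have
`D |w| ≤ 1 / 2`, so `|g w| ≤ 2 K |w| ^ (s + 1) ≤ 2 K |w| ≤ 1 / n` (as `|w| ≤ 1`). Hence `|(c + g) ^ n| ≤ c ^ n (1 + 1 / (n c)) ^ n ≤ e c ^ n`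
(`c ≥ 1`) and `|Q (c + g)| ≤ M_Q`, the sum of the absolute values of the coefficients of `Q` times `(1 / η + 1) ^ deg`. So
`G (w) = Q (c + g w) (c + g w) ^ n` is analytic on the ball of radius `ρ` with `|G| ≤ e M_Q c ^ n`, and Cauchy's estimate bounds its
Taylor coefficients: `|a_k| ≤ e M_Q c ^ n (2 / ρ) ^ k` (use e.g. `Complex.norm_iteratedDeriv_le_of_forall_mem_sphere_norm_le` on the
sphere of radius `ρ / 2` and `Complex.hasSum_taylorSeries_on_ball`). Since `g (w) = O (w ^ (s + 1))`, `a_0 = Q (c) c ^ n`, `a_k = 0` for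
`1 ≤ k ≤ s` and `a_(s+1) = (n c ^ (n - 1) Q (c) + c ^ n Q' (c)) b_0`; all `a_k` are real (or take real parts: for real `t` both sides are
real). Put `b'_i = a_(s + 1 + i)` and take `B` large (e.g. `B = 4 (D + K + 1) (1 + 3 M_Q)`): for `t ≥ B n`, `w = 1 / t` is in the ball.
(Another way to get the low coefficients: `g = w ^ (s+1) g₁` with `g₁ 0 = b_0`, and `Q(c+z)(c+z)^n = a_0 + z R (z)`, `R` a polynomial in `z` with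
`R (0) = n c ^ (n - 1) Q (c) + c ^ n Q' (c)`; so `G = a_0 + w ^ (s+1) H (w)` with `H (w) = g₁ (w) R (g w)` analytic on the ball: bound `H` by
the maximum principle or simply bound `|R (z)| = |P (z) - P (0)| / |z|` by Cauchy: take `b'` = the Taylor coefficients of `H`. Any way is fine.) -/
def S_comp : Prop := ∀ (s : ℕ) (η K D : ℝ) (Q : Polynomial ℝ), 0 < η → 0 ≤ K → 0 ≤ D → ∃ B : ℝ, 1 ≤ B ∧
  ∀ (c : ℝ) (b : ℕ → ℝ) (n : ℕ), 1 + η ≤ c → c ≤ 1 / η → (∀ i, |b i| ≤ K * D ^ i) → 1 ≤ n →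
    ∃ b' : ℕ → ℝ, b' 0 = (n * c ^ (n - 1) * Q.eval c + c ^ n * Q.derivative.eval c) * b 0 ∧
      (∀ i, |b' i| ≤ c ^ n * (B * n) ^ (s + 1 + i)) ∧
      ∀ t : ℝ, B * n ≤ t → Q.eval (c + ser s b t) * (c + ser s b t) ^ n = Q.eval c * c ^ n + ser s b' t

/-- PW-COUNT. **Few integers have large Weyl sums (second moment).**
Proof. `y = log H`, `Y = y ^ (1 + γ / 2)`, `w = ⌊δ a / 2⌋ ≥ 1` for large `y` (as `a ≥ κ y`; `w ≥ δ a / 4`). Let `S_N (m) = ∑_{a ≤ n < N} e (θ n m)`.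
If `‖S_N (m)‖ > δ N` with `a ≤ N ≤ Y`, let `N' = a + t w ≤ N < N' + w`; then `‖S_N - S_N'‖ ≤ w ≤ δ N / 2`, so `‖S_N' (m)‖ > δ N' / 2`.
For fixed `N'`: `∑_{m ∈ Ioc H (2 H)} ‖S_N' (m)‖² = ∑_{n, n'} ∑_m e (θ n m - θ n' m)`, the diagonal gives `(N' - a) H`, the other pairs (the sum for
`n < n'` is the complex conjugate of the one for `(n', n)`) at most `N'² H exp (-(2 y ^ (1 - 3 γ)))`, so altogether `≤ 2 H N'` for large `y`,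
because `Y exp (-(2 y ^ (1 - 3 γ))) ≤ 1` (`γ ≤ 1 / 20`). Markov: at most `2 H N' / (δ N' / 2)² ≤ 8 H / (δ² a)` bad `m` for `N'`. There are at most
`Y / w + 1 ≤ 8 Y / (δ a)` values `N'` (if `Y ≥ a`; otherwise there is no `N`), so at most `64 H Y / (δ³ a²) ≤ (64 / (δ³ κ²)) H y ^ (-1 + γ / 2) ≤ H y ^ (-1 / 2)`
bad `m` for large `y`. -/
def S_count : Prop := ∀ (γ δ κ : ℝ), 0 < γ → γ ≤ 1 / 20 → 0 < δ → 0 < κ → ∃ y₀ : ℝ, ∀ (H a : ℕ) (θ : ℕ → ℕ → ℝ),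
  y₀ ≤ Real.log H → κ * Real.log H ≤ a →
  (∀ n n' : ℕ, a ≤ n' → n' < n → (n : ℝ) ≤ (Real.log H) ^ (1 + γ / 2) →
    ‖∑ m ∈ Ioc H (2 * H), e (θ n m - θ n' m)‖ ≤ H * Real.exp (-(2 * (Real.log H) ^ (1 - 3 * γ)))) →
  (({m : ℕ | H < m ∧ m ≤ 2 * H ∧ ∃ N : ℕ, a ≤ N ∧ (N : ℝ) ≤ (Real.log H) ^ (1 + γ / 2) ∧
    δ * N < ‖∑ n ∈ Ico a N, e (θ n m)‖}.ncard : ℕ) : ℝ) ≤ H * (Real.log H) ^ (-(1 / 2) : ℝ)

/-- PW-WIN. **Weyl sums from windows.**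
Proof. Let `S (N) = ∑_{n < N} f n`. For large `j`: `‖S (a (j+1))‖ ≤ a j + ε_j e_j + (a (j+1) - e j)`, so `‖S (a (j+1))‖ / a (j+1) → 0`. For
`a (j+1) ≤ N < a (j+2)`: `‖S N‖ ≤ ‖S (a (j+1))‖ + ε_(j+1) min (N, e (j+1)) + max (0, N - e (j+1))`; if `N > e (j+1)` the last term is at most
`a (j+2) - e (j+1)`, which is `o (a (j+2))` and so `o (e (j+1))`, `N ≥ e (j+1)`. Every large `N` is in such an interval since `a` tends to infinity. -/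
def S_win : Prop := ∀ (f : ℕ → ℂ) (a d : ℕ → ℕ) (ε : ℕ → ℝ), (∀ n, ‖f n‖ ≤ 1) → (∀ᶠ j in atTop, a j ≤ d j ∧ d j ≤ a (j + 1)) →
  Tendsto a atTop atTop → Tendsto (fun j => (a j : ℝ) / a (j + 1)) atTop (𝓝 0) →
  Tendsto (fun j => ((a (j + 1) : ℝ) - d j) / a (j + 1)) atTop (𝓝 0) → Tendsto ε atTop (𝓝 0) →
  (∀ᶠ j in atTop, ∀ N : ℕ, a j ≤ N → N ≤ d j → ‖∑ n ∈ Ico (a j) N, f n‖ ≤ ε j * N) →
  Tendsto (fun N : ℕ => ‖∑ n ∈ range N, f n‖ / N) atTop (𝓝 0)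

/-- PW-LIM. **Passage to the limit.** (May use `S_win` as a hypothesis.)
Proof. `a j = ⌈(s + 1 + δ j) y j / log (c j)⌉`, `d j = ⌊((s + 1) y (j+1) - √(y (j+1))) / log (c (j+1))⌋`. Since `c j → X > 1`, `log (c j) → log X > 0`.
Then `a j / a (j+1) → 0` (`y j / y (j+1) → 0`), `d j ≤ a (j+1)`, `a j ≤ d j` eventually, `(a (j+1) - d j) / a (j+1) → 0` (the same `log (c (j+1))` is in both:
`a (j+1) - d j ≤ (δ (j+1) y (j+1) + √(y (j+1))) / log (c (j+1)) + 2`), and `d j ≤ (y j) ^ (1 + γ / 2)` eventually (`y (j+1) ≤ (y j) ^ (1 + γ / 4)`).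
For `n ≤ d j`: with `z = c (j+1)`, `|X - z| ≤ C exp (-(s + 1) y (j+1))`, `n |X - z| → 0` uniformly, so `X ^ n ≤ 2 z ^ n`,
`|Q (X) X ^ n - Q (z) z ^ n| ≤ C' n z ^ n |X - z| ≤ C'' n exp (n log z - (s + 1) y (j+1)) ≤ C'' n exp (-√(y (j+1))) → 0` uniformly for `n ≤ d j`
(`n ≤ C y (j+1)`), and `‖e (u) - e (v)‖ ≤ 2 π |u - v|`. So `‖∑_{n ∈ Ico (a j) N} e (Q (X) X ^ n)‖ ≤ δ j N + ε' j N` with `ε' → 0`; use `S_win`. -/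
def S_lim : Prop := S_win → ∀ (γ : ℝ) (s : ℕ) (C X : ℝ) (Q : Polynomial ℝ) (y δ c : ℕ → ℝ), 0 < γ → 0 ≤ C → 1 < X →
  (∀ j, 1 ≤ y j) → Tendsto y atTop atTop → Tendsto (fun j => y j / y (j + 1)) atTop (𝓝 0) → (∀ j, y (j + 1) ≤ (y j) ^ (1 + γ / 4)) →
  (∀ j, 0 < δ j) → Tendsto δ atTop (𝓝 0) → (∀ᶠ j in atTop, |X - c j| ≤ C * Real.exp (-((s + 1) * y j))) →
  (∀ᶠ j in atTop, ∀ N : ℕ, ⌈(s + 1 + δ j) * y j / Real.log (c j)⌉₊ ≤ N → (N : ℝ) ≤ (y j) ^ (1 + γ / 2) →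
    ‖∑ n ∈ Ico ⌈(s + 1 + δ j) * y j / Real.log (c j)⌉₊ N, e (Q.eval (c (j + 1)) * (c (j + 1)) ^ n)‖ ≤ δ j * N) →
  Tendsto (fun N : ℕ => ‖∑ n ∈ range N, e (Q.eval X * X ^ n)‖ / N) atTop (𝓝 0)

/-- PW-PAIR. **The inequalities for the coefficients of the difference of two expansions.**
Proof. `b''_i = b1_i - b2_i`. `|b''_i| ≤ 2 c ^ n (B n) ^ (s + 1 + i)` as `n' ≤ n`, `c ≥ 1`, `B ≥ 1`. With `Λ_n = n c ^ (n-1) Q (c) + c ^ n Q' (c)`,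
`Λ_n - Λ_n' = (Q (c) / c) (n c ^ n - n' c ^ n') + Q' (c) (c ^ n - c ^ n')`, so `|Λ_n - Λ_n'| ≥ (η² n - M) (c ^ n - c ^ n') ≥ (η² n - M) c ^ n (1 - 1 / c)`,
`M` a bound for `|Q' (c)|` on `[1, 1/η]` and `n c ^ n - n' c ^ n' ≥ n (c ^ n - c ^ n')`; for `n ≥ a ≥ (s + 1) y η'` large this is `≥ κ c ^ n`, `κ = 1 - 1 / (1 + η)`.
Also `|Λ_n - Λ_n'| ≤ C n c ^ n`. With `n log c ≥ (s + 1 + δ) y` (from `n ≥ n' ≥ a`), `|b_0| ≥ exp (-y ^ (1/3))`, `|b_0| ≤ K`, `n ≤ y ^ (1 + γ / 2)`, `H = exp y` all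
inequalities follow for large `y`: (i) `B n ≤ exp (y ^ (1/2))`; (ii) `2 c ^ n (B n) ^ (s + 1) ≤ exp (y ^ (1/2)) |b''_0|`; (iii) `H ^ (δ / 2) ≤ |b''_0| / H ^ (s + 1)`;
(iv) `|b''_0| / H ^ (s + 1) ≤ exp (y ^ (1 + γ))`: `log |b''_0| ≤ log (C n K) + n log c ≤ log (C n K) + y ^ (1 + γ / 2) log (1 / η) ≤ y ^ (1 + γ)`. -/
def S_pair : Prop := ∀ (γ : ℝ) (s : ℕ) (δ η K B : ℝ) (Q : Polynomial ℝ), 0 < γ → γ ≤ 1 / 20 → 0 < δ → δ ≤ 1 → 0 < η → 0 ≤ K → 1 ≤ B →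
  ∃ H₀ : ℕ, ∀ (H : ℕ) (c b0 : ℝ) (n n' : ℕ) (b1 b2 : ℕ → ℝ), H₀ ≤ H → 1 + η ≤ c → c ≤ 1 / η → η ≤ |Q.eval c| →
    Real.exp (-(Real.log H) ^ (1 / 3 : ℝ)) ≤ |b0| → |b0| ≤ K →
    (s + 1 + δ) * Real.log H / Real.log c ≤ n' → n' < n → (n : ℝ) ≤ (Real.log H) ^ (1 + γ / 2) →
    b1 0 = (n * c ^ (n - 1) * Q.eval c + c ^ n * Q.derivative.eval c) * b0 →
    b2 0 = (n' * c ^ (n' - 1) * Q.eval c + c ^ n' * Q.derivative.eval c) * b0 →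
    (∀ i, |b1 i| ≤ c ^ n * (B * n) ^ (s + 1 + i)) → (∀ i, |b2 i| ≤ c ^ n' * (B * n') ^ (s + 1 + i)) →
      (∀ i, |b1 i - b2 i| ≤ (2 * c ^ n * (B * n) ^ (s + 1)) * (B * n) ^ i) ∧
      B * n ≤ Real.exp ((Real.log H) ^ (1 / 2 : ℝ)) ∧ B * n ≤ H ∧
      2 * c ^ n * (B * n) ^ (s + 1) ≤ Real.exp ((Real.log H) ^ (1 / 2 : ℝ)) * |b1 0 - b2 0| ∧ b1 0 - b2 0 ≠ 0 ∧
      (H : ℝ) ^ (δ / 2) ≤ |b1 0 - b2 0| / (H : ℝ) ^ (s + 1) ∧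
      |b1 0 - b2 0| / (H : ℝ) ^ (s + 1) ≤ Real.exp ((Real.log H) ^ (1 + γ))

end Pool.Agent.H608.Pw
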