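import Mathlib
import Pool.Agent.H608.Pw.Stm

set_option autoImplicit false

/-!
# Passage to the limit for powers (helper784 for helper608, PW-LIM)
-/

namespace Pool.Agent.H608.Pw

open Finset Filter Topology

namespace Lim

lemma norm_e (x : ℝ) : ‖e x‖ = 1 := by
  unfold e
  exact Complex.norm_exp_ofReal_mul_I _

lemma e_sub_le (u v : ℝ) : ‖e u - e v‖ ≤ 2 * Real.pi * |u - v| := by
  have h : e u - e v = e v * (Complex.exp (Complex.I * ((2 * Real.pi * (u - v) : ℝ) : ℂ)) - 1) := by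
    unfold e
    rw [mul_sub, mul_one, ← Complex.exp_add]
    have h1 : ((2 * Real.pi * v : ℝ) : ℂ) * Complex.I +
        Complex.I * ((2 * Real.pi * (u - v) : ℝ) : ℂ) = ((2 * Real.pi * u : ℝ) : ℂ) * Complex.I := by
      push_cast
      ring
    rw [h1]
  rw [h, norm_mul, norm_e, one_mul]
  refine Real.norm_exp_I_mul_ofReal_sub_one_le.trans ?_
  rw [Real.norm_eq_abs, abs_mul, abs_of_pos (by positivity : (0 : ℝ) < 2 * Real.pi)]

/-- the estimate for one index -/
lemma pointwise (X z h K qX qz E T : ℝ) (n : ℕ) (hX : 1 ≤ X) (hz : 1 ≤ z) (hh : |X - z| ≤ h)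
    (hK : 0 ≤ K) (hq : |qz - qX| ≤ K * |z - X|) (hn : n * h ≤ 1) (hzn : z ^ n * h ≤ E)
    (hnT : (n : ℝ) ≤ T) : |qX * X ^ n - qz * z ^ n| ≤ (3 * |qX| * T + K) * E := by
  have hh0 : 0 ≤ h := (abs_nonneg _).trans hh
  have hzn0 : 0 ≤ z ^ n := by positivity
  have hE : 0 ≤ E := (mul_nonneg hzn0 hh0).trans hzn
  have hm1 : max |X| |z| ≤ z * Real.exp h := by
    have h1 : z + h ≤ z * Real.exp h := by
      have h2 := Real.add_one_le_exp h
      nlinarith
    rw [abs_of_nonneg (by linarith), abs_of_nonneg (by linarith)]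
    refine max_le ?_ ?_
    · have h3 := le_abs_self (X - z)
      linarith
    · linarith
  have hm0 : 1 ≤ max |X| |z| := le_trans (by rwa [abs_of_nonneg (by linarith)]) (le_max_left _ _)
  have h4 : max |X| |z| ^ (n - 1) ≤ 3 * z ^ n := by
    calc max |X| |z| ^ (n - 1) ≤ max |X| |z| ^ n := pow_le_pow_right₀ hm0 (Nat.sub_le _ _)
      _ ≤ (z * Real.exp h) ^ n := pow_le_pow_left₀ (by linarith) hm1 n
      _ = z ^ n * Real.exp (n * h) := by rw [mul_pow, ← Real.exp_nat_mul]
      _ ≤ z ^ n * 3 := by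
          refine mul_le_mul_of_nonneg_left ?_ hzn0
          exact (Real.exp_le_exp.2 hn).trans (by linarith [Real.exp_one_lt_d9])
      _ = 3 * z ^ n := by ring
  have h5 : |X ^ n - z ^ n| ≤ 3 * T * E := by
    calc |X ^ n - z ^ n| ≤ |X - z| * n * max |X| |z| ^ (n - 1) := abs_pow_sub_pow_le ..
      _ ≤ h * n * (3 * z ^ n) := by
          refine mul_le_mul ?_ h4 (by positivity) (by positivity)
          exact mul_le_mul_of_nonneg_right hh (Nat.cast_nonneg n)
      _ = 3 * n * (z ^ n * h) := by ring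
      _ ≤ 3 * T * E := by
          have hT : (0 : ℝ) ≤ T := (Nat.cast_nonneg n).trans hnT
          refine mul_le_mul (by linarith) hzn (by positivity) (by positivity)
  have h6 : qX * X ^ n - qz * z ^ n = qX * (X ^ n - z ^ n) - (qz - qX) * z ^ n := by ring
  have h7 : |(qz - qX) * z ^ n| ≤ K * E := by
    rw [abs_mul, abs_of_nonneg hzn0]
    calc |qz - qX| * z ^ n ≤ K * |z - X| * z ^ n := mul_le_mul_of_nonneg_right hq hzn0
      _ ≤ K * h * z ^ n := by
          refine mul_le_mul_of_nonneg_right ?_ hzn0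
          refine mul_le_mul_of_nonneg_left ?_ hK
          rwa [abs_sub_comm]
      _ = K * (z ^ n * h) := by ring
      _ ≤ K * E := mul_le_mul_of_nonneg_left hzn hK
  have h8 : |qX * (X ^ n - z ^ n)| ≤ |qX| * (3 * T * E) := by
    rw [abs_mul]
    exact mul_le_mul_of_nonneg_left h5 (abs_nonneg _)
  rw [h6]
  have h9 := abs_sub (qX * (X ^ n - z ^ n)) ((qz - qX) * z ^ n)
  linarith

/-- the error tends to zero -/
lemma err (A K C : ℝ) : Tendsto (fun t : ℝ => (A * t + K) * (C * Real.exp (-√t))) atTop (𝓝 0) := by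
  have h2 := (Real.tendsto_pow_mul_exp_neg_atTop_nhds_zero 2).comp Real.tendsto_sqrt_atTop
  have h0 := (Real.tendsto_pow_mul_exp_neg_atTop_nhds_zero 0).comp Real.tendsto_sqrt_atTop
  have h3 := (h2.const_mul (A * C)).add (h0.const_mul (K * C))
  rw [mul_zero, mul_zero, add_zero] at h3
  refine h3.congr' ?_
  filter_upwards [eventually_ge_atTop (0 : ℝ)] with t ht
  simp only [Function.comp_apply, pow_zero, one_mul]
  rw [Real.sq_sqrt ht]
  ring

end Lim

open Lim

theorem lim : S_lim := by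
  intro hwin γ s C X Q y δ c hγ hC hX hy1 hy hyr hyg hδ0 hδ hc hsum
  have hs : (0 : ℝ) < s + 1 := by positivity
  have hlogX : 0 < Real.log X := Real.log_pos hX
  set κ : ℝ := (s + 1) / Real.log X with hκ
  have hκ0 : 0 < κ := div_pos hs hlogX
  have hyp : ∀ j, 0 < y j := fun j => by linarith [hy1 j]
  have hexp : Tendsto (fun j => C * Real.exp (-((s + 1) * y j))) atTop (𝓝 0) := by
    have h1 : Tendsto (fun j => (s + 1 : ℝ) * y j) atTop atTop := hy.const_mul_atTop hs
    have h2 := (Real.tendsto_exp_neg_atTop_nhds_zero.comp h1).const_mul C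
    rw [mul_zero] at h2
    exact h2
  have hcX : Tendsto c atTop (𝓝 X) := by
    rw [tendsto_iff_norm_sub_tendsto_zero]
    refine squeeze_zero' (Eventually.of_forall fun _ => norm_nonneg _) (hc.mono fun j hj => ?_) hexp
    rw [Real.norm_eq_abs, abs_sub_comm]
    exact hj
  have hl : Tendsto (fun j => Real.log (c j)) atTop (𝓝 (Real.log X)) :=
    (Real.continuousAt_log (by linarith : X ≠ 0)).tendsto.comp hcX
  have hlpos : ∀ᶠ j in atTop, 0 < Real.log (c j) := hl.eventually (lt_mem_nhds hlogX)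
  have hinv : Tendsto (fun j => 1 / y j) atTop (𝓝 0) := tendsto_const_nhds.div_atTop hy
  have hsh : Tendsto (fun j : ℕ => j + 1) atTop atTop := tendsto_add_atTop_nat 1
  set a : ℕ → ℕ := fun j => ⌈(s + 1 + δ j) * y j / Real.log (c j)⌉₊ with ha_def
  set d : ℕ → ℕ := fun j => ⌊((s + 1) * y (j + 1) - √(y (j + 1))) / Real.log (c (j + 1))⌋₊ with hd_def
  -- `a j / y j → κ`
  have hA : Tendsto (fun j => (s + 1 + δ j) / Real.log (c j)) atTop (𝓝 κ) := by
    have h1 : Tendsto (fun j => (s + 1 : ℝ) + δ j) atTop (𝓝 (s + 1 + 0)) := hδ.const_add _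
    rw [add_zero] at h1
    exact h1.div hl hlogX.ne'
  have ha : Tendsto (fun j => (a j : ℝ) / y j) atTop (𝓝 κ) := by
    have hup : Tendsto (fun j => (s + 1 + δ j) / Real.log (c j) + 1 / y j) atTop (𝓝 (κ + 0)) :=
      hA.add hinv
    rw [add_zero] at hup
    refine tendsto_of_tendsto_of_tendsto_of_le_of_le' hA hup ?_ ?_
    · filter_upwards with j
      rw [le_div_iff₀ (hyp j)]
      calc (s + 1 + δ j) / Real.log (c j) * y j = (s + 1 + δ j) * y j / Real.log (c j) := by ring
        _ ≤ a j := Nat.le_ceil _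
    · filter_upwards [hlpos] with j hj
      rw [div_le_iff₀ (hyp j)]
      have h1 : (a j : ℝ) < (s + 1 + δ j) * y j / Real.log (c j) + 1 := by
        refine Nat.ceil_lt_add_one ?_
        have h2 := hyp j
        have h3 := hδ0 j
        positivity
      have h4 : ((s + 1 + δ j) / Real.log (c j) + 1 / y j) * y j =
          (s + 1 + δ j) * y j / Real.log (c j) + 1 := by
        have h5 := (hyp j).ne'
        field_simp
      rw [h4]
      exact h1.le
  -- `d j / y (j + 1) → κ`
  have hy' : Tendsto (fun j => y (j + 1)) atTop atTop := hy.comp hsh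
  have hl' : Tendsto (fun j => Real.log (c (j + 1))) atTop (𝓝 (Real.log X)) := hl.comp hsh
  have hlpos' : ∀ᶠ j in atTop, 0 < Real.log (c (j + 1)) := hsh.eventually hlpos
  have hinv' : Tendsto (fun j => 1 / y (j + 1)) atTop (𝓝 0) := hinv.comp hsh
  have hsq : Tendsto (fun j => 1 / √(y (j + 1))) atTop (𝓝 0) :=
    tendsto_const_nhds.div_atTop (Real.tendsto_sqrt_atTop.comp hy')
  have hB : Tendsto (fun j => ((s + 1) - 1 / √(y (j + 1))) / Real.log (c (j + 1))) atTop (𝓝 κ) := by
    have h1 : Tendsto (fun j => (s + 1 : ℝ) - 1 / √(y (j + 1))) atTop (𝓝 (s + 1 - 0)) :=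
      hsq.const_sub _
    rw [sub_zero] at h1
    exact h1.div hl' hlogX.ne'
  have hDB : ∀ j, ((s + 1) * y (j + 1) - √(y (j + 1))) / Real.log (c (j + 1)) =
      ((s + 1) - 1 / √(y (j + 1))) / Real.log (c (j + 1)) * y (j + 1) := by
    intro j
    have h1 : √(y (j + 1)) = 1 / √(y (j + 1)) * y (j + 1) := by
      have h2 : 0 < √(y (j + 1)) := Real.sqrt_pos.2 (hyp (j + 1))
      have h3 := Real.mul_self_sqrt (hyp (j + 1)).le
      rw [div_mul_eq_mul_div, one_mul, eq_div_iff h2.ne']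
      exact h3
    have h4 : (s + 1) * y (j + 1) - √(y (j + 1)) = ((s + 1) - 1 / √(y (j + 1))) * y (j + 1) := by
      rw [sub_mul, ← h1]
    rw [h4]
    ring
  have hBpos : ∀ᶠ j in atTop, 0 < ((s + 1) - 1 / √(y (j + 1))) / Real.log (c (j + 1)) :=
    hB.eventually (lt_mem_nhds hκ0)
  have hD0 : ∀ᶠ j in atTop, 0 ≤ ((s + 1) * y (j + 1) - √(y (j + 1))) / Real.log (c (j + 1)) := by
    filter_upwards [hBpos] with j hj
    rw [hDB]
    exact mul_nonneg hj.le (hyp _).le
  have hd : Tendsto (fun j => (d j : ℝ) / y (j + 1)) atTop (𝓝 κ) := by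
    have hlo : Tendsto (fun j => ((s + 1) - 1 / √(y (j + 1))) / Real.log (c (j + 1)) -
        1 / y (j + 1)) atTop (𝓝 (κ - 0)) := hB.sub hinv'
    rw [sub_zero] at hlo
    refine tendsto_of_tendsto_of_tendsto_of_le_of_le' hlo hB ?_ ?_
    · filter_upwards with j
      rw [le_div_iff₀ (hyp _)]
      have h1 := Nat.sub_one_lt_floor
        (((s + 1) * y (j + 1) - √(y (j + 1))) / Real.log (c (j + 1)))
      have h2 : (((s + 1) - 1 / √(y (j + 1))) / Real.log (c (j + 1)) - 1 / y (j + 1)) *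
          y (j + 1) = ((s + 1) * y (j + 1) - √(y (j + 1))) / Real.log (c (j + 1)) - 1 := by
        rw [sub_mul, ← hDB, one_div, inv_mul_cancel₀ (hyp (j + 1)).ne']
      rw [h2]
      exact h1.le
    · filter_upwards [hD0] with j hj
      rw [div_le_iff₀ (hyp _), ← hDB]
      exact Nat.floor_le hj
  have ha' : Tendsto (fun j => (a (j + 1) : ℝ) / y (j + 1)) atTop (𝓝 κ) := ha.comp hsh
  have haj : ∀ j, (a j : ℝ) = (a j : ℝ) / y j * y j := fun j => (div_mul_cancel₀ _ (hyp j).ne').symm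
  -- the hypotheses of the theorem on windows
  have w1 : ∀ᶠ j in atTop, a j ≤ d j ∧ d j ≤ a (j + 1) := by
    have h1 : Tendsto (fun j => (a j : ℝ) / y j * (y j / y (j + 1))) atTop (𝓝 (κ * 0)) :=
      ha.mul hyr
    rw [mul_zero] at h1
    have h2 : ∀ᶠ j in atTop, (a j : ℝ) / y j * (y j / y (j + 1)) < (d j : ℝ) / y (j + 1) :=
      h1.eventually_lt hd hκ0
    filter_upwards [h2, hD0, hlpos'] with j hj h3 h4
    constructor
    · have h5 : (a j : ℝ) / y j * (y j / y (j + 1)) = (a j : ℝ) / y (j + 1) := by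
        rw [div_mul_div_cancel₀ (hyp j).ne']
      rw [h5, div_lt_div_iff_of_pos_right (hyp _)] at hj
      exact_mod_cast hj.le
    · have h5 : (d j : ℝ) ≤ a (j + 1) := by
        refine (Nat.floor_le h3).trans (le_trans ?_ (Nat.le_ceil _))
        rw [div_le_div_iff_of_pos_right h4]
        have h6 := Real.sqrt_nonneg (y (j + 1))
        have h7 := mul_pos (hδ0 (j + 1)) (hyp (j + 1))
        linarith
      exact_mod_cast h5
  have w2 : Tendsto a atTop atTop := by
    have h1 : Tendsto (fun j => (a j : ℝ) / y j * y j) atTop atTop := ha.pos_mul_atTop hκ0 hy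
    have h2 : Tendsto (fun j => (a j : ℝ)) atTop atTop := h1.congr fun j => (haj j).symm
    exact tendsto_natCast_atTop_iff.1 h2
  have w3 : Tendsto (fun j => (a j : ℝ) / a (j + 1)) atTop (𝓝 0) := by
    have h1 : Tendsto (fun j => (a j : ℝ) / y j * (y j / y (j + 1)) /
        ((a (j + 1) : ℝ) / y (j + 1))) atTop (𝓝 (κ * 0 / κ)) := (ha.mul hyr).div ha' hκ0.ne'
    rw [mul_zero, zero_div] at h1
    refine h1.congr fun j => ?_
    have h2 := (hyp j).ne'
    have h3 := (hyp (j + 1)).ne'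
    rw [div_mul_div_cancel₀ h2, div_div_div_cancel_right₀ h3]
  have w4 : Tendsto (fun j => ((a (j + 1) : ℝ) - d j) / a (j + 1)) atTop (𝓝 0) := by
    have h1 : Tendsto (fun j => ((a (j + 1) : ℝ) / y (j + 1) - (d j : ℝ) / y (j + 1)) /
        ((a (j + 1) : ℝ) / y (j + 1))) atTop (𝓝 ((κ - κ) / κ)) := (ha'.sub hd).div ha' hκ0.ne'
    rw [sub_self, zero_div] at h1
    refine h1.congr fun j => ?_
    have h3 := (hyp (j + 1)).ne'
    rw [← sub_div, div_div_div_cancel_right₀ h3]
  -- the error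
  obtain ⟨K₀, hK₀⟩ := (Q.hasDerivAt X).isBigO_sub.bound
  set K : ℝ := |K₀| with hKd
  have hK0 : 0 ≤ K := abs_nonneg _
  have hQ : ∀ᶠ j in atTop, |Q.eval (c (j + 1)) - Q.eval X| ≤ K * |c (j + 1) - X| := by
    have h1 := (hcX.comp hsh).eventually hK₀
    filter_upwards [h1] with j hj
    simp only [Real.norm_eq_abs, Function.comp_apply] at hj
    exact hj.trans (mul_le_mul_of_nonneg_right (le_abs_self _) (abs_nonneg _))
  set ε : ℕ → ℝ := fun j => δ j + 2 * Real.pi *
    ((3 * |Q.eval X| * (2 * κ * y (j + 1)) + K) * (C * Real.exp (-√(y (j + 1))))) with hε_def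
  have w5 : Tendsto ε atTop (𝓝 0) := by
    have h1 := (err (3 * |Q.eval X| * (2 * κ)) K C).comp hy'
    have h2 := hδ.add (h1.const_mul (2 * Real.pi))
    rw [mul_zero, add_zero] at h2
    refine h2.congr fun j => ?_
    simp only [Function.comp_apply, hε_def]
    ring
  have h2κ : ∀ᶠ j in atTop, (d j : ℝ) ≤ 2 * κ * y (j + 1) := by
    have h1 : ∀ᶠ j in atTop, (d j : ℝ) / y (j + 1) < 2 * κ := hd.eventually (gt_mem_nhds (by linarith))
    filter_upwards [h1] with j hj
    rw [div_lt_iff₀ (hyp _)] at hj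
    exact hj.le
  have hgam : ∀ᶠ j in atTop, 2 * κ ≤ (y j) ^ (γ / 4) :=
    ((tendsto_rpow_atTop (by linarith : 0 < γ / 4)).comp hy).eventually (eventually_ge_atTop _)
  have hsmall : ∀ᶠ j in atTop, 2 * κ * y (j + 1) * (C * Real.exp (-((s + 1) * y (j + 1)))) ≤ 1 := by
    have h1 := (Real.tendsto_pow_mul_exp_neg_atTop_nhds_zero 1).comp hy'
    have h2 := h1.const_mul (2 * κ * C)
    rw [mul_zero] at h2
    have h3 : ∀ᶠ j in atTop, _ < (1 : ℝ) := h2.eventually (gt_mem_nhds one_pos)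
    filter_upwards [h3] with j hj
    simp only [Function.comp_apply, pow_one] at hj
    have h4 : Real.exp (-((s + 1) * y (j + 1))) ≤ Real.exp (-y (j + 1)) := by
      rw [Real.exp_le_exp]
      have h5 := mul_nonneg (Nat.cast_nonneg (α := ℝ) s) (hyp (j + 1)).le
      linarith
    have h6 := hyp (j + 1)
    calc 2 * κ * y (j + 1) * (C * Real.exp (-((s + 1) * y (j + 1))))
        ≤ 2 * κ * y (j + 1) * (C * Real.exp (-y (j + 1))) := by
          refine mul_le_mul_of_nonneg_left ?_ (by positivity)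
          exact mul_le_mul_of_nonneg_left h4 hC
      _ = 2 * κ * C * (y (j + 1) * Real.exp (-y (j + 1))) := by ring
      _ ≤ 1 := hj.le
  have hc1 : ∀ᶠ j in atTop, 1 < c (j + 1) := (hcX.comp hsh).eventually (lt_mem_nhds hX)
  have w6 : ∀ᶠ j in atTop, ∀ N : ℕ, a j ≤ N → N ≤ d j →
      ‖∑ n ∈ Ico (a j) N, e (Q.eval X * X ^ n)‖ ≤ ε j * N := by
    filter_upwards [hsum, hsh.eventually hc, hc1, hQ, h2κ, hgam, hsmall, hD0, hlpos'] with j
      g1 g2 g3 g4 g5 g6 g7 g8 g9
    intro N haN hNd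
    have hNd' : (N : ℝ) ≤ d j := by exact_mod_cast hNd
    have hN1 : (N : ℝ) ≤ (y j) ^ (1 + γ / 2) := by
      refine hNd'.trans (g5.trans ?_)
      calc 2 * κ * y (j + 1) ≤ (y j) ^ (γ / 4) * (y j) ^ (1 + γ / 4) :=
            mul_le_mul g6 (hyg j) (hyp _).le (Real.rpow_nonneg (hyp j).le _)
        _ = (y j) ^ (1 + γ / 2) := by
            rw [← Real.rpow_add (hyp j)]
            have h1 : γ / 4 + (1 + γ / 4) = 1 + γ / 2 := by ring
            rw [h1]
    have h1 := g1 N haN hN1
    set z := c (j + 1) with hz_def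
    have hpt : ∀ n ∈ Ico (a j) N, ‖e (Q.eval X * X ^ n) - e (Q.eval z * z ^ n)‖ ≤ 2 * Real.pi *
        ((3 * |Q.eval X| * (2 * κ * y (j + 1)) + K) * (C * Real.exp (-√(y (j + 1))))) := by
      intro n hn
      rw [mem_Ico] at hn
      have hnd : (n : ℝ) ≤ d j := (by exact_mod_cast hn.2.le : (n : ℝ) ≤ N).trans hNd'
      refine (e_sub_le _ _).trans ?_
      refine mul_le_mul_of_nonneg_left ?_ (by positivity)
      refine pointwise X z (C * Real.exp (-((s + 1) * y (j + 1)))) K _ _ _ _ n hX.le g3.le g2 hK0 g4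
        ?_ ?_ (hnd.trans g5)
      · refine le_trans ?_ g7
        exact mul_le_mul_of_nonneg_right (hnd.trans g5) (by positivity)
      · have h2 : (n : ℝ) * Real.log z ≤ (s + 1) * y (j + 1) - √(y (j + 1)) := by
          have h3 := hnd.trans (Nat.floor_le g8)
          rwa [le_div_iff₀ g9] at h3
        have h4 : z ^ n = Real.exp (n * Real.log z) := by
          rw [Real.exp_nat_mul, Real.exp_log (by linarith)]
        rw [h4]
        calc Real.exp (n * Real.log z) * (C * Real.exp (-((s + 1) * y (j + 1))))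
            = C * Real.exp (n * Real.log z + -((s + 1) * y (j + 1))) := by
              rw [Real.exp_add]
              ring
          _ ≤ C * Real.exp (-√(y (j + 1))) := by
              refine mul_le_mul_of_nonneg_left (Real.exp_le_exp.2 ?_) hC
              linarith
    have h2 : ∑ n ∈ Ico (a j) N, e (Q.eval X * X ^ n) = ∑ n ∈ Ico (a j) N, e (Q.eval z * z ^ n) +
        ∑ n ∈ Ico (a j) N, (e (Q.eval X * X ^ n) - e (Q.eval z * z ^ n)) := by
      rw [← sum_add_distrib]
      refine sum_congr rfl fun n _ => ?_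
      ring
    have h3 := norm_sum_le_of_le _ hpt
    rw [sum_const, nsmul_eq_mul, Nat.card_Ico] at h3
    have h4 : (((N - a j : ℕ) : ℕ) : ℝ) ≤ N := by exact_mod_cast Nat.sub_le _ _
    have h5 : 0 ≤ 2 * Real.pi *
        ((3 * |Q.eval X| * (2 * κ * y (j + 1)) + K) * (C * Real.exp (-√(y (j + 1))))) := by
      have h6 := hyp (j + 1)
      positivity
    have h6 := mul_le_mul_of_nonneg_right h4 h5
    rw [h2]
    refine (norm_add_le _ _).trans ?_
    simp only [hε_def]
    linarith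
  exact hwin (fun n => e (Q.eval X * X ^ n)) a d ε (fun n => (norm_e _).le) w1 w2 w3 w4 w5 w6

end Pool.Agent.H608.Pw
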