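import Pool.Agent.H608.Pw.Stm

set_option autoImplicit false

namespace Pool.Agent.H608.Pw

open Finset Filter Topology

namespace XPair

theorem poly_le_exp (C : ℝ) (k : ℕ) : ∀ᶠ x : ℝ in atTop, C * x ^ k ≤ Real.exp x := by
  have h := Real.tendsto_pow_mul_exp_neg_atTop_nhds_zero k
  have h2 := h.const_mul C
  rw [mul_zero] at h2
  filter_upwards [h2.eventually (gt_mem_nhds (show (0 : ℝ) < 1 by norm_num))] with x hx
  have h3 : (C * (x ^ k * Real.exp (-x))) * Real.exp x ≤ 1 * Real.exp x :=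
    mul_le_mul_of_nonneg_right hx.le (Real.exp_pos x).le
  have h4 : (C * (x ^ k * Real.exp (-x))) * Real.exp x = C * x ^ k := by
    rw [Real.exp_neg]
    field_simp
  rw [h4, one_mul] at h3
  exact h3

theorem tend6 : Tendsto (fun y : ℝ => y ^ (1 / 6 : ℝ)) atTop atTop :=
  tendsto_rpow_atTop (by norm_num)

theorem pw {y : ℝ} (hy : 0 ≤ y) : (y ^ (1 / 6 : ℝ)) ^ 2 = y ^ (1 / 3 : ℝ) ∧
    (y ^ (1 / 6 : ℝ)) ^ 3 = y ^ (1 / 2 : ℝ) ∧ (y ^ (1 / 6 : ℝ)) ^ 6 = y := by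
  refine ⟨?_, ?_, ?_⟩
  · rw [← Real.rpow_natCast, ← Real.rpow_mul hy]
    norm_num
  · rw [← Real.rpow_natCast, ← Real.rpow_mul hy]
    norm_num
  · rw [← Real.rpow_natCast, ← Real.rpow_mul hy]
    norm_num

theorem e2 (B : ℝ) : ∀ᶠ y : ℝ in atTop, B * y ^ 2 ≤ Real.exp (y ^ (1 / 2 : ℝ)) := by
  filter_upwards [tend6.eventually (poly_le_exp B 12), tend6.eventually (eventually_ge_atTop 1),
    eventually_ge_atTop 0] with y h1 h2 h3
  obtain ⟨p2, p3, p6⟩ := pw h3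
  set x := y ^ (1 / 6 : ℝ) with hx
  rw [← p3]
  have h4 : B * y ^ 2 = B * x ^ 12 := by
    rw [← p6]
    ring
  rw [h4]
  refine h1.trans (Real.exp_le_exp.2 ?_)
  nlinarith [mul_nonneg (sub_nonneg.2 h2) (sub_nonneg.2 h2), sq_nonneg x]

theorem e3 (B κ : ℝ) (s : ℕ) (hκ : 0 < κ) : ∀ᶠ y : ℝ in atTop,
    2 * (B * y ^ 2) ^ (s + 1) ≤ κ * Real.exp (y ^ (1 / 2 : ℝ) - y ^ (1 / 3 : ℝ)) := by
  filter_upwards [tend6.eventually (poly_le_exp (2 * B ^ (s + 1) / κ) (12 * (s + 1))),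
    tend6.eventually (eventually_ge_atTop 2), eventually_ge_atTop 0] with y h1 h2 h3
  obtain ⟨p2, p3, p6⟩ := pw h3
  set x := y ^ (1 / 6 : ℝ) with hx
  rw [← p3, ← p2]
  have h4 : 2 * (B * y ^ 2) ^ (s + 1) = κ * (2 * B ^ (s + 1) / κ * x ^ (12 * (s + 1))) := by
    rw [← p6, mul_pow, pow_mul x 12, ← pow_mul x 6 2]
    field_simp
  rw [h4]
  refine mul_le_mul_of_nonneg_left (h1.trans (Real.exp_le_exp.2 ?_)) hκ.le
  nlinarith [mul_nonneg (sub_nonneg.2 h2) (sq_nonneg x), sq_nonneg x]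

theorem e4 (δ κ : ℝ) (hδ : 0 < δ) (hκ : 0 < κ) : ∀ᶠ y : ℝ in atTop,
    1 ≤ κ * Real.exp (δ / 2 * y - y ^ (1 / 3 : ℝ)) := by
  filter_upwards [tend6.eventually (poly_le_exp (1 / κ) 0),
    tend6.eventually (eventually_ge_atTop 1), tend6.eventually (eventually_ge_atTop (4 / δ)),
    eventually_ge_atTop 0] with y h1 h2 h5 h3
  obtain ⟨p2, p3, p6⟩ := pw h3
  set x := y ^ (1 / 6 : ℝ) with hx
  rw [← p2, ← p6]
  have h4 : (1 : ℝ) = κ * (1 / κ * x ^ 0) := by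
    field_simp
  rw [h4]
  refine mul_le_mul_of_nonneg_left (h1.trans (Real.exp_le_exp.2 ?_)) hκ.le
  have h6 : 4 ≤ δ * x := by
    rw [div_le_iff₀ hδ] at h5
    linarith
  have h7 : 1 ≤ x ^ 3 := one_le_pow₀ h2
  have h8 : 4 ≤ δ * x ^ 4 := by
    calc (4 : ℝ) ≤ δ * x := h6
      _ = δ * x * 1 := by ring
      _ ≤ δ * x * x ^ 3 := mul_le_mul_of_nonneg_left h7 (by positivity)
      _ = δ * x ^ 4 := by ring
  have h9 : 4 * x ^ 2 ≤ δ * x ^ 4 * x ^ 2 := mul_le_mul_of_nonneg_right h8 (sq_nonneg x)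
  have h10 : x ≤ x ^ 2 := by nlinarith
  nlinarith

theorem e5 (B U γ : ℝ) (s : ℕ) (hγ : 0 < γ) : ∀ᶠ y : ℝ in atTop,
    2 * Real.exp (U * y ^ (1 + γ / 2)) * (B * y ^ 2) ^ (s + 1) ≤ Real.exp (y ^ (1 + γ)) := by
  have ht : Tendsto (fun y : ℝ => y ^ (γ / 2)) atTop atTop := tendsto_rpow_atTop (by linarith)
  filter_upwards [poly_le_exp (2 * B ^ (s + 1)) (2 * (s + 1)), eventually_ge_atTop 1,
    ht.eventually (eventually_ge_atTop (U + 1))] with y h1 h2 h3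
  have hy : 0 < y := by linarith
  have h4 : 2 * (B * y ^ 2) ^ (s + 1) = 2 * B ^ (s + 1) * y ^ (2 * (s + 1)) := by
    rw [mul_pow, pow_mul]
    ring
  have h5 : y ^ (1 + γ) = y ^ (1 + γ / 2) * y ^ (γ / 2) := by
    rw [← Real.rpow_add hy]
    congr 1
    ring
  have h6 : y ≤ y ^ (1 + γ / 2) := by
    calc y = y ^ (1 : ℝ) := (Real.rpow_one y).symm
      _ ≤ y ^ (1 + γ / 2) := Real.rpow_le_rpow_of_exponent_le h2 (by linarith)
  have h7 : 0 ≤ y ^ (1 + γ / 2) := Real.rpow_nonneg hy.le _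
  have h8 : U * y ^ (1 + γ / 2) + y ≤ y ^ (1 + γ) := by
    rw [h5]
    have h9 : y ^ (1 + γ / 2) * (U + 1) ≤ y ^ (1 + γ / 2) * y ^ (γ / 2) :=
      mul_le_mul_of_nonneg_left h3 h7
    linarith
  calc 2 * Real.exp (U * y ^ (1 + γ / 2)) * (B * y ^ 2) ^ (s + 1)
      = Real.exp (U * y ^ (1 + γ / 2)) * (2 * (B * y ^ 2) ^ (s + 1)) := by ring
    _ ≤ Real.exp (U * y ^ (1 + γ / 2)) * Real.exp y := by
        rw [h4]
        exact mul_le_mul_of_nonneg_left h1 (Real.exp_pos _).le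
    _ = Real.exp (U * y ^ (1 + γ / 2) + y) := (Real.exp_add _ _).symm
    _ ≤ Real.exp (y ^ (1 + γ)) := Real.exp_le_exp.2 h8

theorem e6 (η U M : ℝ) (hη : 0 < η) (hU : 0 < U) : ∀ᶠ y : ℝ in atTop,
    1 ≤ η ^ 2 * (y / U) - M := by
  filter_upwards [eventually_ge_atTop ((1 + M) * U / η ^ 2)] with y h1
  rw [div_le_iff₀ (by positivity)] at h1
  have h2 : (1 + M) ≤ η ^ 2 * (y / U) := by
    rw [← mul_div_assoc, le_div_iff₀ hU]
    linarith
  linarith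

/-- the lower bound for the difference of the leading coefficients -/
theorem lower {η M c q q' : ℝ} {n n' : ℕ} (hη : 0 < η) (hc : 1 + η ≤ c) (hc2 : c ≤ 1 / η)
    (hq : η ≤ |q|) (hq' : |q'| ≤ M) (h1 : 1 ≤ n') (h2 : n' < n) (h3 : 1 ≤ η ^ 2 * n - M) :
    η / (1 + η) * c ^ n ≤
      |(n * c ^ (n - 1) * q + c ^ n * q') - (n' * c ^ (n' - 1) * q + c ^ n' * q')| := by
  have hc0 : 0 < c := by linarith
  have hc1 : 1 ≤ c := by linarith
  obtain ⟨k, rfl⟩ : ∃ k, n = k + 1 := ⟨n - 1, by omega⟩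
  obtain ⟨k', rfl⟩ : ∃ k', n' = k' + 1 := ⟨n' - 1, by omega⟩
  simp only [Nat.add_sub_cancel]
  have hkk : k' + 1 ≤ k := by omega
  have hD1 : c ^ (k' + 1) ≤ c ^ k := pow_le_pow_right₀ hc1 hkk
  have hkr : ((k' + 1 : ℕ) : ℝ) ≤ ((k + 1 : ℕ) : ℝ) := by exact_mod_cast h2.le
  set N : ℝ := ((k + 1 : ℕ) : ℝ) with hN
  set N' : ℝ := ((k' + 1 : ℕ) : ℝ) with hN'
  have hN0 : 0 ≤ N := by positivity
  -- the difference `D = c ^ n - c ^ n'`
  have hD : 0 ≤ c ^ (k + 1) - c ^ (k' + 1) := by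
    have : c ^ k ≤ c ^ (k + 1) := pow_le_pow_right₀ hc1 (by omega)
    linarith
  -- first part
  have hP : N * (c ^ k - c ^ k') ≤ N * c ^ k - N' * c ^ k' := by
    have := mul_le_mul_of_nonneg_right hkr (pow_nonneg hc0.le k')
    linarith
  have hcinv : η * c ≤ 1 := by
    rw [le_div_iff₀ hη] at hc2
    linarith
  have hDk : 0 ≤ c ^ k - c ^ k' := by
    have : c ^ k' ≤ c ^ k := pow_le_pow_right₀ hc1 (by omega)
    linarith
  have hP2 : η * (c ^ (k + 1) - c ^ (k' + 1)) ≤ c ^ k - c ^ k' := by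
    have e1 : η * (c ^ (k + 1) - c ^ (k' + 1)) = (η * c) * (c ^ k - c ^ k') := by ring
    rw [e1]
    calc (η * c) * (c ^ k - c ^ k') ≤ 1 * (c ^ k - c ^ k') := mul_le_mul_of_nonneg_right hcinv hDk
      _ = c ^ k - c ^ k' := one_mul _
  have hA : η ^ 2 * N * (c ^ (k + 1) - c ^ (k' + 1)) ≤ |q * (N * c ^ k - N' * c ^ k')| := by
    rw [abs_mul]
    have h5 : N * (η * (c ^ (k + 1) - c ^ (k' + 1))) ≤ N * c ^ k - N' * c ^ k' :=
      (mul_le_mul_of_nonneg_left hP2 hN0).trans hP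
    have h6 : 0 ≤ N * (η * (c ^ (k + 1) - c ^ (k' + 1))) := by positivity
    calc η ^ 2 * N * (c ^ (k + 1) - c ^ (k' + 1))
        = η * (N * (η * (c ^ (k + 1) - c ^ (k' + 1)))) := by ring
      _ ≤ |q| * |N * c ^ k - N' * c ^ k'| :=
          mul_le_mul hq (h5.trans (le_abs_self _)) h6 (abs_nonneg _)
  have hBd : |q' * (c ^ (k + 1) - c ^ (k' + 1))| ≤ M * (c ^ (k + 1) - c ^ (k' + 1)) := by
    rw [abs_mul, abs_of_nonneg hD]
    exact mul_le_mul_of_nonneg_right hq' hD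
  have hsum : (N * c ^ k * q + c ^ (k + 1) * q') - (N' * c ^ k' * q + c ^ (k' + 1) * q') =
      q * (N * c ^ k - N' * c ^ k') + q' * (c ^ (k + 1) - c ^ (k' + 1)) := by ring
  rw [hsum]
  have h7 : |q * (N * c ^ k - N' * c ^ k')| - |q' * (c ^ (k + 1) - c ^ (k' + 1))| ≤
      |q * (N * c ^ k - N' * c ^ k') + q' * (c ^ (k + 1) - c ^ (k' + 1))| := by
    have := abs_sub_abs_le_abs_sub (q * (N * c ^ k - N' * c ^ k'))
      (-(q' * (c ^ (k + 1) - c ^ (k' + 1))))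
    rw [abs_neg, sub_neg_eq_add] at this
    exact this
  have h8 : (c ^ (k + 1) - c ^ (k' + 1)) ≤ (η ^ 2 * N - M) * (c ^ (k + 1) - c ^ (k' + 1)) := by
    calc (c ^ (k + 1) - c ^ (k' + 1)) = 1 * (c ^ (k + 1) - c ^ (k' + 1)) := (one_mul _).symm
      _ ≤ _ := mul_le_mul_of_nonneg_right h3 hD
  have h9 : η / (1 + η) * c ^ (k + 1) ≤ c ^ (k + 1) - c ^ (k' + 1) := by
    have e2 : η / (1 + η) * c ^ (k + 1) = c ^ (k + 1) - c ^ (k + 1) / (1 + η) := by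
      field_simp
      ring
    have e3 : c ^ k ≤ c ^ (k + 1) / (1 + η) := by
      rw [le_div_iff₀ (by positivity), pow_succ]
      exact mul_le_mul_of_nonneg_left hc (pow_nonneg hc0.le k)
    linarith
  linarith

end XPair

open XPair in
theorem pair : S_pair := by
  intro γ s δ η K B Q hγ hγ2 hδ hδ1 hη hK hB
  obtain ⟨M, hM⟩ : ∃ M : ℝ, ∀ c, 1 ≤ c → c ≤ 1 / η → |Q.derivative.eval c| ≤ M := by
    obtain ⟨M, hM⟩ := (isCompact_Icc (a := (1 : ℝ)) (b := 1 / η)).exists_bound_of_continuousOn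
      (f := fun c => Q.derivative.eval c) (Polynomial.continuous _).continuousOn
    exact ⟨M, fun c h1 h2 => hM c ⟨h1, h2⟩⟩
  obtain ⟨κ, hκd⟩ : ∃ κ : ℝ, κ = η / (1 + η) := ⟨_, rfl⟩
  have hκ : 0 < κ := by rw [hκd]; positivity
  obtain ⟨U, hUd⟩ : ∃ U : ℝ, U = |Real.log (1 / η)| + 1 := ⟨_, rfl⟩
  have hU : 0 < U := by rw [hUd]; positivity
  have hlog : Tendsto (fun H : ℕ => Real.log (H : ℝ)) atTop atTop :=
    Real.tendsto_log_atTop.comp tendsto_natCast_atTop_atTop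
  have hev := hlog.eventually ((eventually_ge_atTop 1).and ((e2 B).and ((e3 B κ s hκ).and
    ((e4 δ κ hδ hκ).and ((e5 B U γ s hγ).and (e6 η U M hη hU))))))
  obtain ⟨H₀, hH₀⟩ := eventually_atTop.1 hev
  refine ⟨max H₀ 1, ?_⟩
  intro H c b0 n n' b1 b2 hH hc hc2 hq hb0 hb0K hn' hnn hn hb1 hb2 hB1 hB2
  obtain ⟨y1, y2, y3, y4, y5, y6⟩ := hH₀ H ((le_max_left _ _).trans hH)
  have hH1 : 1 ≤ H := (le_max_right _ _).trans hH
  have hHr : (0 : ℝ) < (H : ℝ) := by exact_mod_cast hH1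
  obtain ⟨y, hy⟩ : ∃ y : ℝ, y = Real.log (H : ℝ) := ⟨_, rfl⟩
  have hHy : (H : ℝ) = Real.exp y := by rw [hy, Real.exp_log hHr]
  rw [← hy] at y1 y2 y3 y4 y5 y6 hb0 hn' hn ⊢
  have hc0 : 0 < c := by linarith
  have hc1 : 1 ≤ c := by linarith
  have hL : 0 < Real.log c := Real.log_pos (by linarith)
  have hLU : Real.log c ≤ U := by
    have h1 : Real.log c ≤ Real.log (1 / η) := Real.log_le_log hc0 hc2
    rw [hUd]
    linarith [le_abs_self (Real.log (1 / η))]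
  have hs0 : (0 : ℝ) ≤ (s : ℝ) := Nat.cast_nonneg s
  have hy0 : 0 < y := by linarith
  -- lower bound of `n'`
  have hn'0 : y / U ≤ (n' : ℝ) := by
    refine le_trans ?_ hn'
    rw [div_le_div_iff₀ hU hL]
    have e1 : y * Real.log c ≤ y * U := mul_le_mul_of_nonneg_left hLU hy0.le
    have e2 : 0 ≤ (s + δ) * y * U := by positivity
    nlinarith
  have hn'1 : 1 ≤ n' := by
    have : (0 : ℝ) < (n' : ℝ) := lt_of_lt_of_le (by positivity) hn'0
    exact_mod_cast this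
  have hnr : (n' : ℝ) ≤ (n : ℝ) := by exact_mod_cast hnn.le
  have hnL : (s + 1 + δ) * y ≤ n * Real.log c := by
    rw [div_le_iff₀ hL] at hn'
    exact hn'.trans (mul_le_mul_of_nonneg_right hnr hL.le)
  have hn0 : (0 : ℝ) ≤ (n : ℝ) := Nat.cast_nonneg n
  have hny : (n : ℝ) ≤ y ^ 2 := by
    refine hn.trans ?_
    calc y ^ (1 + γ / 2) ≤ y ^ (2 : ℝ) := Real.rpow_le_rpow_of_exponent_le y1 (by linarith)
      _ = y ^ 2 := Real.rpow_two y
  have hB0 : 0 ≤ B := by linarith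
  have hBn : B * n ≤ B * y ^ 2 := mul_le_mul_of_nonneg_left hny hB0
  have hBn0 : 0 ≤ B * n := by positivity
  have hcn : c ^ n = Real.exp (n * Real.log c) := by
    rw [mul_comm, Real.exp_mul, Real.exp_log hc0, Real.rpow_natCast]
  -- the bounds for `b''`
  have k1 : ∀ i, |b1 i - b2 i| ≤ (2 * c ^ n * (B * n) ^ (s + 1)) * (B * n) ^ i := by
    intro i
    have h1 := hB1 i
    have h2 := hB2 i
    have h3 : c ^ n' * (B * n') ^ (s + 1 + i) ≤ c ^ n * (B * n) ^ (s + 1 + i) := by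
      have h4 : c ^ n' ≤ c ^ n := pow_le_pow_right₀ hc1 hnn.le
      have h5 : (B * n') ^ (s + 1 + i) ≤ (B * n) ^ (s + 1 + i) :=
        pow_le_pow_left₀ (by positivity) (mul_le_mul_of_nonneg_left hnr hB0) _
      exact mul_le_mul h4 h5 (by positivity) (by positivity)
    have h6 : (2 * c ^ n * (B * n) ^ (s + 1)) * (B * n) ^ i =
        c ^ n * (B * n) ^ (s + 1 + i) + c ^ n * (B * n) ^ (s + 1 + i) := by
      rw [pow_add (B * (n : ℝ)) (s + 1) i]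
      ring
    rw [h6]
    calc |b1 i - b2 i| ≤ |b1 i| + |b2 i| := abs_sub _ _
      _ ≤ _ := add_le_add h1 (h2.trans h3)
  have k2 : B * n ≤ Real.exp (y ^ (1 / 2 : ℝ)) := hBn.trans y2
  have k3 : B * n ≤ H := by
    refine k2.trans ?_
    rw [hHy]
    apply Real.exp_le_exp.2
    calc y ^ (1 / 2 : ℝ) ≤ y ^ (1 : ℝ) := Real.rpow_le_rpow_of_exponent_le y1 (by norm_num)
      _ = y := Real.rpow_one y
  -- the lower bound of `|b''_0|`
  have hlow : κ * c ^ n * Real.exp (-y ^ (1 / 3 : ℝ)) ≤ |b1 0 - b2 0| := by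
    have h3 : 1 ≤ η ^ 2 * n - M := by
      refine y6.trans ?_
      have : η ^ 2 * (y / U) ≤ η ^ 2 * n :=
        mul_le_mul_of_nonneg_left (hn'0.trans hnr) (by positivity)
      linarith
    have h4 := lower hη hc hc2 hq (hM c hc1 hc2) hn'1 hnn h3
    rw [hb1, hb2, ← sub_mul, abs_mul, hκd]
    exact mul_le_mul h4 hb0 (Real.exp_pos _).le (abs_nonneg _)
  have hpos : 0 < κ * c ^ n * Real.exp (-y ^ (1 / 3 : ℝ)) := by positivity
  have k4 : 2 * c ^ n * (B * n) ^ (s + 1) ≤ Real.exp (y ^ (1 / 2 : ℝ)) * |b1 0 - b2 0| := by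
    have h5 : (B * n) ^ (s + 1) ≤ (B * y ^ 2) ^ (s + 1) := pow_le_pow_left₀ hBn0 hBn _
    calc 2 * c ^ n * (B * n) ^ (s + 1) ≤ 2 * c ^ n * (B * y ^ 2) ^ (s + 1) :=
          mul_le_mul_of_nonneg_left h5 (by positivity)
      _ = c ^ n * (2 * (B * y ^ 2) ^ (s + 1)) := by ring
      _ ≤ c ^ n * (κ * Real.exp (y ^ (1 / 2 : ℝ) - y ^ (1 / 3 : ℝ))) :=
          mul_le_mul_of_nonneg_left y3 (by positivity)
      _ = Real.exp (y ^ (1 / 2 : ℝ)) * (κ * c ^ n * Real.exp (-y ^ (1 / 3 : ℝ))) := by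
          rw [sub_eq_add_neg, Real.exp_add]
          ring
      _ ≤ _ := mul_le_mul_of_nonneg_left hlow (Real.exp_pos _).le
  have k5 : b1 0 - b2 0 ≠ 0 := by
    intro h
    rw [h, abs_zero] at hlow
    linarith
  have hHs : (H : ℝ) ^ (s + 1) = Real.exp ((s + 1) * y) := by
    rw [hHy, ← Real.exp_nat_mul]
    push_cast
    ring_nf
  have k6 : (H : ℝ) ^ (δ / 2) ≤ |b1 0 - b2 0| / (H : ℝ) ^ (s + 1) := by
    rw [le_div_iff₀ (by positivity), hHs]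
    refine le_trans ?_ hlow
    rw [hHy, ← Real.exp_mul, ← Real.exp_add, hcn]
    have h6 : Real.exp ((s + 1 + δ) * y) ≤ Real.exp (n * Real.log c) := Real.exp_le_exp.2 hnL
    calc Real.exp (y * (δ / 2) + (s + 1) * y)
        = Real.exp (y * (δ / 2) + (s + 1) * y) * 1 := (mul_one _).symm
      _ ≤ Real.exp (y * (δ / 2) + (s + 1) * y) * (κ * Real.exp (δ / 2 * y - y ^ (1 / 3 : ℝ))) :=
          mul_le_mul_of_nonneg_left y4 (Real.exp_pos _).le
      _ = κ * Real.exp ((s + 1 + δ) * y) * Real.exp (-y ^ (1 / 3 : ℝ)) := by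
          rw [mul_left_comm, mul_assoc κ, ← Real.exp_add, ← Real.exp_add]
          congr 2
          ring
      _ ≤ κ * Real.exp (n * Real.log c) * Real.exp (-y ^ (1 / 3 : ℝ)) :=
          mul_le_mul_of_nonneg_right (mul_le_mul_of_nonneg_left h6 hκ.le) (Real.exp_pos _).le
  have k7 : |b1 0 - b2 0| / (H : ℝ) ^ (s + 1) ≤ Real.exp (y ^ (1 + γ)) := by
    have h7 : (1 : ℝ) ≤ (H : ℝ) ^ (s + 1) := one_le_pow₀ (by exact_mod_cast hH1)
    refine (div_le_self (abs_nonneg _) h7).trans ?_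
    have h8 := k1 0
    rw [pow_zero, mul_one] at h8
    refine h8.trans (le_trans ?_ y5)
    have h9 : c ^ n ≤ Real.exp (U * y ^ (1 + γ / 2)) := by
      rw [hcn]
      apply Real.exp_le_exp.2
      rw [mul_comm]
      exact mul_le_mul hLU hn hn0 hU.le
    have h5 : (B * n) ^ (s + 1) ≤ (B * y ^ 2) ^ (s + 1) := pow_le_pow_left₀ hBn0 hBn _
    exact mul_le_mul (mul_le_mul_of_nonneg_left h9 (by norm_num)) h5 (by positivity) (by positivity)
  exact ⟨k1, k2, k3, k4, k5, k6, k7⟩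

end Pool.Agent.H608.Pw
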