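import Pool.Agent.H608.Pw.Stm

/-!
# PW-WIN: Weyl sums from windows (helper600)
-/

set_option autoImplicit false

namespace Pool.Agent.H608.Pw

open Finset Filter Topology

namespace Win

theorem norm_Ico_le (f : ℕ → ℂ) (hf : ∀ n, ‖f n‖ ≤ 1) {m n : ℕ} (h : m ≤ n) :
    ‖∑ i ∈ Ico m n, f i‖ ≤ (n : ℝ) - m := by
  refine (norm_sum_le_of_le _ (fun i _ => hf i)).trans ?_
  rw [Finset.sum_const, Nat.card_Ico, nsmul_eq_mul, mul_one, Nat.cast_sub h]

theorem splitW (f : ℕ → ℂ) {m n : ℕ} (h : m ≤ n) :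
    ‖∑ i ∈ range n, f i‖ ≤ ‖∑ i ∈ range m, f i‖ + ‖∑ i ∈ Ico m n, f i‖ := by
  rw [Finset.range_eq_Ico, Finset.range_eq_Ico, ← Finset.sum_Ico_consecutive f (Nat.zero_le m) h]
  exact norm_add_le _ _

theorem exists_index (a : ℕ → ℕ) (J N : ℕ) (h1 : a (J + 1) ≤ N) : ∀ k : ℕ, N < a (J + 1 + k) →
    ∃ j, J ≤ j ∧ a (j + 1) ≤ N ∧ N < a (j + 2) := by
  intro k
  induction k with
  | zero => intro h; exact absurd h1 (not_le.2 h)
  | succ k ih =>
    intro h
    rcases lt_or_ge N (a (J + 1 + k)) with h2 | h2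
    · exact ih h2
    · refine ⟨J + k, Nat.le_add_right _ _, ?_, ?_⟩
      · rwa [show J + k + 1 = J + 1 + k by ring]
      · rwa [show J + k + 2 = J + 1 + (k + 1) by ring]

end Win

open Win in
theorem win : S_win := by
  intro f a d ε hf had ha h1 h2 hε hw
  rw [Metric.tendsto_atTop]
  intro t ht
  set η : ℝ := min (1 / 2) (t / 12) with hη
  have hη0 : 0 < η := lt_min (by norm_num) (by positivity)
  have hη1 : η ≤ 1 / 2 := min_le_left _ _
  have hη2 : η ≤ t / 12 := min_le_right _ _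
  have e1 : ∀ᶠ j in atTop, 1 ≤ a j := ha.eventually_ge_atTop 1
  have e2 : ∀ᶠ j in atTop, (a j : ℝ) / a (j + 1) < η := h1.eventually_lt_const hη0
  have e3 : ∀ᶠ j in atTop, ((a (j + 1) : ℝ) - d j) / a (j + 1) < η := h2.eventually_lt_const hη0
  have e4 : ∀ᶠ j in atTop, ε j < η := hε.eventually_lt_const hη0
  obtain ⟨J, hJ⟩ := eventually_atTop.1 (((((had.and e1).and e2).and e3).and e4).and hw)
  have q1 : ∀ j, J ≤ j → a j ≤ d j ∧ d j ≤ a (j + 1) := fun j hj => (hJ j hj).1.1.1.1.1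
  have q0 : ∀ j, J ≤ j → 1 ≤ a j := fun j hj => (hJ j hj).1.1.1.1.2
  have q2 : ∀ j, J ≤ j → (a j : ℝ) ≤ η * a (j + 1) := by
    intro j hj
    have hp : (0 : ℝ) < a (j + 1) := by
      have := q0 (j + 1) (by omega)
      exact_mod_cast this
    have := (hJ j hj).1.1.1.2
    rw [div_lt_iff₀ hp] at this
    exact this.le
  have q3 : ∀ j, J ≤ j → (a (j + 1) : ℝ) - d j ≤ η * a (j + 1) := by
    intro j hj
    have hp : (0 : ℝ) < a (j + 1) := by
      have := q0 (j + 1) (by omega)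
      exact_mod_cast this
    have := (hJ j hj).1.1.2
    rw [div_lt_iff₀ hp] at this
    exact this.le
  have q4 : ∀ j, J ≤ j → ∀ N : ℕ, a j ≤ N → N ≤ d j → ‖∑ n ∈ Ico (a j) N, f n‖ ≤ η * N := by
    intro j hj N hN1 hN2
    refine ((hJ j hj).2 N hN1 hN2).trans ?_
    exact mul_le_mul_of_nonneg_right (hJ j hj).1.2.le (Nat.cast_nonneg N)
  -- the sums up to `a (j + 1)`
  have A : ∀ j, J ≤ j → ‖∑ n ∈ range (a (j + 1)), f n‖ ≤ 3 * η * a (j + 1) := by
    intro j hj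
    obtain ⟨r1, r2⟩ := q1 j hj
    have s1 := splitW f r2
    have s2 := splitW f r1
    have s3 := q4 j hj (d j) r1 le_rfl
    have s4 := norm_Ico_le f hf r2
    have s5 : ‖∑ n ∈ range (a j), f n‖ ≤ a j := by
      have := norm_Ico_le f hf (Nat.zero_le (a j))
      rw [← Finset.range_eq_Ico] at this
      simpa using this
    have s6 := q2 j hj
    have s7 := q3 j hj
    have s8 : η * (d j : ℝ) ≤ η * a (j + 1) :=
      mul_le_mul_of_nonneg_left (by exact_mod_cast r2) hη0.le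
    linarith
  -- all sums
  have B : ∀ j, J ≤ j → ∀ N : ℕ, a (j + 1) ≤ N → N < a (j + 2) →
      ‖∑ n ∈ range N, f n‖ ≤ 6 * η * N := by
    intro j hj N hN1 hN2
    have hj1 : J ≤ j + 1 := by omega
    obtain ⟨r1, r2⟩ := q1 (j + 1) hj1
    have t1 := A j hj
    have hNr : (a (j + 1) : ℝ) ≤ N := by exact_mod_cast hN1
    have hN0 : (0 : ℝ) ≤ N := Nat.cast_nonneg N
    rcases le_or_gt N (d (j + 1)) with h | h
    · have s1 := splitW f hN1
      have s2 := q4 (j + 1) hj1 N hN1 h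
      have s3 : 3 * η * (a (j + 1) : ℝ) ≤ 3 * η * N := mul_le_mul_of_nonneg_left hNr (by positivity)
      have s4 : 0 ≤ η * N := by positivity
      linarith
    · have s0 := splitW f h.le
      have s1 := splitW f r1
      have s2 := q4 (j + 1) hj1 (d (j + 1)) r1 le_rfl
      have s3 := norm_Ico_le f hf h.le
      have s4 := q3 (j + 1) hj1
      have hdN : (d (j + 1) : ℝ) ≤ N := by exact_mod_cast h.le
      have hN2' : (N : ℝ) ≤ a (j + 1 + 1) := by exact_mod_cast hN2.le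
      have s5 : (a (j + 1 + 1) : ℝ) ≤ 2 * N := by
        have : η * (a (j + 1 + 1) : ℝ) ≤ 1 / 2 * a (j + 1 + 1) :=
          mul_le_mul_of_nonneg_right hη1 (Nat.cast_nonneg _)
        linarith
      have s6 : η * (a (j + 1 + 1) : ℝ) ≤ η * (2 * N) := mul_le_mul_of_nonneg_left s5 hη0.le
      have s7 : 3 * η * (a (j + 1) : ℝ) ≤ 3 * η * N := mul_le_mul_of_nonneg_left hNr (by positivity)
      have s8 : η * (d (j + 1) : ℝ) ≤ η * N := mul_le_mul_of_nonneg_left hdN hη0.le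
      linarith
  refine ⟨a (J + 1), fun N hN => ?_⟩
  obtain ⟨K, hK⟩ := eventually_atTop.1 (ha.eventually_gt_atTop N)
  obtain ⟨j, hj, hj1, hj2⟩ := exists_index a J N hN K (hK _ (by omega))
  have h5 := B j hj N hj1 hj2
  rw [Real.dist_eq, sub_zero, abs_of_nonneg (by positivity)]
  have h6 : ‖∑ n ∈ range N, f n‖ / N ≤ 6 * η := div_le_of_le_mul₀ (Nat.cast_nonneg N) (by positivity) h5
  linarith

end Pool.Agent.H608.Pw
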