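import Pool.Agent.H608.Pw.Master
import Pool.Agent.H608.Ge.LinMain

/-!
# Powers: several series, analytic functions
-/

set_option autoImplicit false

namespace Pool.Agent.H608.Pw

open Finset Filter Topology Metric Asymptotics
open Pool.Agent.H608.Sp (Freq)
open Pool.Agent.H608.Ge

lemma nrm_ne_zero {Q : ℕ → Polynomial ℝ} {X : ℝ} (h : Nrm Q X) : X ≠ 0 := freq_ne_zero (h.1 2 le_rfl)

/-- **Several variables** -/
theorem n_varP {n : ℕ} {Nr : ℝ → Prop} (hne0 : ∀ X, Nr X → X ≠ 0) {G : Set ((Fin n → ℂ) → ℂ)} {x z : Fin n → ℝ} {r : ℝ} (hr : 0 < r)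
    (hz : ∀ j, |z j - x j| < r)
    (hA : ∀ f ∈ G, AnalyticOnNhd ℂ f (ball (rp x) r)) (hcl : ∀ f ∈ G, ∀ j, Dj j f ∈ G)
    (hsl : ∀ f ∈ G, ∀ (j : Fin n) (c : ℚ), |(c : ℝ) - x j| < r → (fun w => f (Function.update w j (c : ℂ))) ∈ G)
    (hR : ∀ f ∈ G, RealN x r f)
    (hB : ∀ f ∈ G, ∀ j : Fin n, Indep x r j f → (Dj j f (rp z)).re ≠ 0 → Nr (f (rp z)).re) :
    ∀ f ∈ G, (¬ ∃ c, ∀ w ∈ ball (rp x) r, f w = c) → Nr (f (rp z)).re := by
  have hzb : rp z ∈ ball (rp x) r := rp_mem hr hz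
  have hzj : ∀ j, (z j : ℂ) ∈ ball (x j : ℂ) r := fun j => mem_ball_real (hz j)
  have hrat : ∀ (j : Fin n) (c : ℚ), |(c : ℝ) - x j| < r → (c : ℂ) ∈ ball (x j : ℂ) r := by
    intro j c hc
    have := mem_ball_real hc
    push_cast at this
    exact this
  have hfre : ∀ f ∈ G, ∀ (j : Fin n) (c : ℚ), |(c : ℝ) - x j| < r → ∀ w ∈ ball (rp x) r,
      Function.update w j (c : ℂ) ∈ ball (rp x) r := fun f _ j c hc w hw => update_mem hr hw j (hrat j c hc)
  -- descending induction
  have main : ∀ d i : ℕ, i + d = n → ∀ f ∈ G, Indep x r i f → (¬ ∃ c, ∀ w ∈ ball (rp x) r, f w = c) →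
      Nr (f (rp z)).re := by
    intro d
    induction d with
    | zero =>
      intro i hi f hf hI hnc
      exfalso
      apply hnc
      refine ⟨f (rp z), fun w hw => hI w hw _ hzb fun j hj => ?_⟩
      have := j.2
      omega
    | succ d ih =>
      intro i hi f hf hI hnc
      have hin : i < n := by omega
      obtain ⟨j, hj⟩ : ∃ j : Fin n, (j : ℕ) = i := ⟨⟨i, hin⟩, rfl⟩
      -- functions of this level which vanish at `z` vanish
      have hZ : ∀ h ∈ G, Indep x r i h → h (rp z) = 0 → ∀ w ∈ ball (rp x) r, h w = 0 := by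
        intro h hh hIh hhz
        have hmem : ∀ m, (Dj j)^[m] h ∈ G := by
          intro m
          induction m with
          | zero => exact hh
          | succ m ihm =>
            rw [Function.iterate_succ_apply']
            exact hcl _ ihm j
        have hInd : ∀ m, Indep x r i ((Dj j)^[m] h) := by
          intro m
          induction m with
          | zero => exact hIh
          | succ m ihm =>
            rw [Function.iterate_succ_apply']
            exact ihm.Dj hr (hA _ (hmem m)) j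
        have hall : ∀ m, (Dj j)^[m] h (rp z) = 0 := by
          intro m
          induction m with
          | zero => exact hhz
          | succ m ihm =>
            rw [Function.iterate_succ_apply']
            by_contra hne
            have h2 : (Dj j ((Dj j)^[m] h) (rp z)).im = 0 := hR _ (hcl _ (hmem m) j) z hz
            have h3 : (Dj j ((Dj j)^[m] h) (rp z)).re ≠ 0 := by
              intro h0
              exact hne (Complex.ext h0 h2)
            have h4 := hne0 _ (hB _ (hmem m) j (by rw [hj]; exact hInd m) h3)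
            rw [ihm] at h4
            exact h4 rfl
        have hit : ∀ m, ∀ t ∈ ball (x j : ℂ) r, deriv^[m] (fun t => h (Function.update (rp z) j t)) t =
            (Dj j)^[m] h (Function.update (rp z) j t) := by
          intro m
          induction m with
          | zero => intro t _; rfl
          | succ m ihm =>
            intro t ht
            rw [Function.iterate_succ_apply', Function.iterate_succ_apply']
            have h2 : deriv^[m] (fun t => h (Function.update (rp z) j t)) =ᶠ[𝓝 t]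
                fun t => (Dj j)^[m] h (Function.update (rp z) j t) := by
              filter_upwards [isOpen_ball.mem_nhds ht] with w hw
              exact ihm w hw
            rw [h2.deriv_eq]
            exact (slice_hasDerivAt hr (hA _ (hmem m)) hzb j ht).deriv
        have hs : ∀ t ∈ ball (x j : ℂ) r, h (Function.update (rp z) j t) = 0 := by
          apply eq_zero_of_derivs (slice_analytic hr (hA h hh) hzb j) (hzj j)
          intro m
          rw [iteratedDeriv_eq_iterate, hit m _ (hzj j)]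
          have e1 : Function.update (rp z) j ((z j : ℝ) : ℂ) = rp z := by
            rw [rp_update, Function.update_eq_self]
          rw [e1]
          exact hall m
        -- freezing the coordinate at a rational point
        have hs' : ∀ c : ℚ, |(c : ℝ) - x j| < r → ∀ w ∈ ball (rp x) r, h (Function.update w j (c : ℂ)) = 0 := by
          intro c hc
          by_cases hcon : ∃ c', ∀ w ∈ ball (rp x) r, h (Function.update w j (c : ℂ)) = c'
          · obtain ⟨c', hc'⟩ := hcon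
            intro w hw
            rw [hc' w hw, ← hc' _ hzb]
            exact hs c (hrat j c hc)
          · exfalso
            have h5 := ih (i + 1) (by omega) _ (hsl h hh j c hc) (by
              intro w hw w' hw' hww
              refine hIh.upd hr hw hw' j (fun l hl hlj => hww l ?_) (hrat j c hc)
              have : (l : ℕ) ≠ (j : ℕ) := fun h => hlj (Fin.ext h)
              omega) hcon
            have h6 := hne0 _ h5
            rw [hs c (hrat j c hc)] at h6
            exact h6 rfl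
        intro w hw
        have h7 := eq_zero_of_rat hr (slice_analytic hr (hA h hh) hw j) (fun c hc => hs' c hc w hw) (w j)
          ((mem_ball_n hr).1 hw j)
        rw [Function.update_eq_self] at h7
        exact h7
      by_cases hD : Dj j f (rp z) = 0
      · -- `f` does not depend on the coordinate `j`
        have h2 := hZ _ (hcl f hf j) (hI.Dj hr (hA f hf) j) hD
        have h3 : ∀ w ∈ ball (rp x) r, ∀ t ∈ ball (x j : ℂ) r, f (Function.update w j t) = f w := by
          intro w hw t ht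
          have h4 : f (Function.update w j t) = f (Function.update w j (w j)) :=
            isOpen_ball.is_const_of_deriv_eq_zero (f := fun t => f (Function.update w j t))
              (convex_ball (x j : ℂ) r).isPreconnected
              (slice_analytic hr (hA f hf) hw j).differentiableOn (fun v hv => by
                rw [(slice_hasDerivAt hr (hA f hf) hw j hv).deriv]
                exact h2 _ (update_mem hr hw j hv)) ht ((mem_ball_n hr).1 hw j)
          rw [h4, Function.update_eq_self]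
        apply ih (i + 1) (by omega) f hf _ hnc
        intro w hw w' hw' hww
        rw [← h3 w hw (w' j) ((mem_ball_n hr).1 hw' j)]
        apply hI _ (update_mem hr hw j ((mem_ball_n hr).1 hw' j)) _ hw'
        intro l hl
        by_cases hlj : l = j
        · rw [hlj, Function.update_self]
        · rw [Function.update_of_ne hlj]
          apply hww
          have : (l : ℕ) ≠ (j : ℕ) := fun h => hlj (Fin.ext h)
          omega
      · have h3 : (Dj j f (rp z)).im = 0 := hR _ (hcl f hf j) z hz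
        exact hB f hf j (by rw [hj]; exact hI) (fun h0 => hD (Complex.ext h0 h3))
  intro f hf hnc
  exact main n 0 (by omega) f hf (fun w _ w' _ h => by
    have : w = w' := funext fun j => h j (Nat.zero_le _)
    rw [this]) hnc

open Classical in
theorem mvMainP : ∃ C : ℝ, 0 < C ∧ ∀ Q : ℕ → Polynomial ℝ, ∀ M₀ : ℕ, 1 ≤ M₀ → ∀ T : ℕ → Tup, (∃ t, 0 < (T t).n) →
    (∀ t, 8 * (T t).c ≤ (T t).r * M₀) → ∀ A : Set ℕ, DenseA A →
    ∀ (M : ℕ) (𝓕 : ∀ t, Set ((Fin (T t).n → ℂ) → ℂ)), (∀ t, (𝓕 t).Countable) →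
      (∀ t, ∀ f ∈ 𝓕 t, AnalyticOnNhd ℂ f (ball (rp (T t).x) (T t).r)) →
      (∀ t, ∀ f ∈ 𝓕 t, RealN (T t).x (T t).r f) →
      ∃ (E : Set ℕ) (z : ∀ t, Fin (T t).n → ℝ), E.Infinite ∧ (∀ k ∈ E, k ∈ A ∧ M ≤ k ∧ M₀ ≤ k) ∧
      (∀ K : ℕ, 16 ≤ K → (({k : ℕ | k ∈ E ∧ k ≤ K}.ncard : ℕ) : ℝ) ≤
        C * Real.log (Real.log (Real.log K))) ∧
      (∀ t j, Tendsto (fun N : ℕ => (T t).x j - ∑ k ∈ (range N).filter (· ∈ E), ((T t).o j).τ k) atTop
        (𝓝 (z t j))) ∧
      (∀ t j, |z t j - (T t).x j| < (T t).r) ∧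
      ∀ t, ∀ f ∈ 𝓕 t, (¬ ∃ c, ∀ w ∈ ball (rp (T t).x) (T t).r, f w = c) →
        Nrm Q (f (rp (z t))).re := by
  obtain ⟨C, hC, hmaster⟩ := masterP
  refine ⟨C, hC, fun Q M₀ hM₀ T hn0 hM A hA M 𝓕 hcount hFA hFR => ?_⟩
  -- add the coordinates
  obtain ⟨𝓗, h𝓗⟩ : ∃ 𝓗 : ∀ t, Set ((Fin (T t).n → ℂ) → ℂ), 𝓗 = fun t => 𝓕 t ∪ Set.range fun j w => w j := ⟨_, rfl⟩
  have hHc : ∀ t, (𝓗 t).Countable := by
    intro t
    rw [h𝓗]
    exact (hcount t).union (Set.countable_range _)
  have hHA : ∀ t, ∀ f ∈ 𝓗 t, AnalyticOnNhd ℂ f (ball (rp (T t).x) (T t).r) := by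
    intro t f hf
    rw [h𝓗] at hf
    rcases hf with hf | ⟨j, rfl⟩
    · exact hFA t f hf
    · exact (ContinuousLinearMap.proj (R := ℂ) (φ := fun _ : Fin (T t).n => ℂ) j).analyticOnNhd _
  have hHR : ∀ t, ∀ f ∈ 𝓗 t, RealN (T t).x (T t).r f := by
    intro t f hf
    rw [h𝓗] at hf
    rcases hf with hf | ⟨j, rfl⟩
    · exact hFR t f hf
    · intro a _
      exact Complex.ofReal_im (a j)
  have hcl := fun t => clo_prop (T t).r0 (hHA t) (hHR t)
  have hcoord : ∀ t j, (fun w : Fin (T t).n → ℂ => w j) ∈ clo (T t).x (T t).r (𝓗 t) := by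
    intro t j
    apply subset_clo
    rw [h𝓗]
    exact Or.inr ⟨j, rfl⟩
  choose S hSx hSr hSτ hSv using fun t i => (T t).exists_sys i M₀ hM₀ (hM t)
  -- the processes
  have hclc : ∀ t, Countable (clo (T t).x (T t).r (𝓗 t)) := fun t => (clo_countable _ _ (hHc t)).to_subtype
  obtain ⟨t₀, ht₀⟩ := hn0
  have : Nonempty (Σ t, Fin (T t).n × clo (T t).x (T t).r (𝓗 t)) := ⟨⟨t₀, ⟨0, ht₀⟩, ⟨_, hcoord t₀ ⟨0, ht₀⟩⟩⟩⟩
  obtain ⟨e, he⟩ := exists_surjective_nat (Σ t, Fin (T t).n × clo (T t).x (T t).r (𝓗 t))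
  choose P hP hPb using fun p : (Σ t, Fin (T t).n × clo (T t).x (T t).r (𝓗 t)) =>
    (S p.1 p.2.1).exists_proc p.2.2.1 (by
      rw [hSx, hSr]
      exact (hcl p.1 _ p.2.2.2).1)
  obtain ⟨E, hEinf, hEA, hEK, hEs, hE⟩ := hmaster M₀ (fun q => P (e q)) Q A hM₀ hA M
  have hE' : ∀ p, ∃ X a : ℝ, Tendsto (fun N : ℕ => (P p).val ((range N).filter (· ∈ E))) atTop (𝓝 X) ∧
      Tendsto (fun N : ℕ => (P p).b ((range N).filter (· ∈ E)) 0) atTop (𝓝 a) ∧
      (a ≠ 0 → Nrm Q X) := by
    intro p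
    obtain ⟨q, rfl⟩ := he p
    exact hE q
  choose X a hX ha hXa using hE'
  -- the points
  have hpt : ∀ t i F, (S t i).pt F = fun j => if j < i then ((T t).x j : ℂ) else
      (((T t).x j - ∑ k ∈ F, ((T t).o j).τ k : ℝ) : ℂ) := by
    intro t i F
    unfold VSys.pt
    rw [hSx, sum_congr rfl fun k _ => hSτ t i k]
    funext j
    rw [Pi.sub_apply, Finset.sum_apply]
    split_ifs
    · rw [sum_const_zero, sub_zero]
      rfl
    · push_cast
      rfl
  -- the limits
  obtain ⟨z, hz⟩ : ∃ z : ∀ t, Fin (T t).n → ℝ, z = fun t j => X ⟨t, j, ⟨_, hcoord t j⟩⟩ := ⟨_, rfl⟩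
  have hl : ∀ t j, Tendsto (fun N : ℕ => (T t).x j - ∑ k ∈ (range N).filter (· ∈ E), ((T t).o j).τ k) atTop
      (𝓝 (z t j)) := by
    intro t j
    have h1 := hX ⟨t, j, ⟨_, hcoord t j⟩⟩
    rw [hz]
    refine h1.congr fun N => ?_
    rw [hP]
    simp only
    rw [hpt]
    simp only [lt_self_iff_false, if_false, Complex.ofReal_re]
  have hclose : ∀ t j, |z t j - (T t).x j| < (T t).r := by
    intro t j
    have hr0 := (T t).r0
    have h0 : ∀ N : ℕ, |(T t).x j - ∑ k ∈ (range N).filter (· ∈ E), ((T t).o j).τ k - (T t).x j| ≤ (T t).r / 4 := by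
      intro N
      have h1 := (S t j).pt_mem _ (hEs N)
      rw [hpt, hSx, hSr] at h1
      refine le_trans ?_ ((norm_le_pi_norm _ j).trans h1)
      rw [Pi.sub_apply]
      simp only [lt_self_iff_false, if_false]
      unfold rp
      rw [← Complex.ofReal_sub, Complex.norm_real, Real.norm_eq_abs]
    have h1 : |z t j - (T t).x j| ≤ (T t).r / 4 := le_of_tendsto (((hl t j).sub_const ((T t).x j)).abs)
      (Eventually.of_forall h0)
    linarith
  refine ⟨E, z, hEinf, hEA, hEK, hl, hclose, fun t f hf hnc => ?_⟩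
  have hzb : rp (z t) ∈ ball (rp (T t).x) (T t).r := rp_mem (T t).r0 (hclose t)
  refine n_varP (fun X h => nrm_ne_zero h) (G := clo (T t).x (T t).r (𝓗 t)) (T t).r0 (hclose t) (fun f hf => (hcl t f hf).1)
    (fun f hf j => clo_act hf (Sum.inl j)) ?_ (fun f hf => (hcl t f hf).2) ?_ f
    (subset_clo _ _ _ (by rw [h𝓗]; exact Or.inl hf)) hnc
  · intro f hf j c hc
    have h1 := clo_act hf (Sum.inr (j, c))
    unfold act at h1
    simp only at h1
    rwa [if_pos hc] at h1
  · intro f hf j hI hne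
    have hfa := (hcl t f hf).1
    -- the limit point of the system
    obtain ⟨u, hu⟩ : ∃ u : Fin (T t).n → ℝ, u = fun l => if l < j then (T t).x l else z t l := ⟨_, rfl⟩
    have hur : ∀ l, |u l - (T t).x l| < (T t).r := by
      intro l
      rw [hu]
      simp only
      split_ifs
      · rw [sub_self, abs_zero]
        exact (T t).r0
      · exact hclose t l
    have hub : rp u ∈ ball (rp (T t).x) (T t).r := rp_mem (T t).r0 hur
    have hagree : ∀ l : Fin (T t).n, (j : ℕ) ≤ (l : ℕ) → rp u l = rp (z t) l := by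
      intro l hlj
      unfold rp
      rw [hu]
      simp only
      rw [if_neg]
      intro h
      have : (l : ℕ) < j := h
      omega
    have htend : Tendsto (fun N : ℕ => (S t j).pt ((range N).filter (· ∈ E))) atTop (𝓝 (rp u)) := by
      rw [tendsto_pi_nhds]
      intro l
      simp only [hpt]
      unfold rp
      rw [hu]
      simp only
      split_ifs
      · exact tendsto_const_nhds
      · exact (Complex.continuous_ofReal.tendsto _).comp (hl t l)
    obtain ⟨p, hp⟩ : ∃ p : (Σ t, Fin (T t).n × clo (T t).x (T t).r (𝓗 t)), p = ⟨t, j, ⟨f, hf⟩⟩ := ⟨_, rfl⟩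
    have e1 : X p = (f (rp (z t))).re := by
      apply tendsto_nhds_unique (hX p)
      rw [← hI _ hub _ hzb hagree, hp]
      simp only [hP]
      exact (Complex.continuous_re.tendsto _).comp (((hfa _ hub).continuousAt.tendsto).comp htend)
    have e2 : a p = -(((T t).o j).a * (Dj j f (rp (z t))).re) := by
      apply tendsto_nhds_unique (ha p)
      have hI' := hI.Dj (T t).r0 hfa j
      rw [← hI' _ hub _ hzb hagree, hp]
      have h1 : ∀ N, (P ⟨t, j, ⟨f, hf⟩⟩).b ((range N).filter (· ∈ E)) 0 =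
          -(((T t).o j).a * (Dj j f ((S t j).pt ((range N).filter (· ∈ E)))).re) := by
        intro N
        rw [hPb _ _ (hEs N)]
        simp only
        rw [hSv, map_smul, smul_eq_mul, Complex.re_ofReal_mul]
        rfl
      simp only [h1]
      apply Tendsto.neg
      apply Tendsto.const_mul
      exact (Complex.continuous_re.tendsto _).comp
        (((Dj_analytic hfa j _ hub).continuousAt.tendsto).comp htend)
    rw [← e1]
    apply hXa p
    rw [e2]
    exact neg_ne_zero.2 (mul_ne_zero ((T t).o j).a0 hne)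

open Classical in
theorem linMainP : ∃ C : ℝ, 0 < C ∧ ∀ Q : ℕ → Polynomial ℝ, ∀ M₀ : ℕ, 1 ≤ M₀ → ∀ (n : ℕ → ℕ) (o : ∀ t, Fin (n t) → Ser)
    (h : ∀ t, LinInd (o t)) (r : ℕ → ℝ), (∀ t, 0 < r t) → (∃ t, 0 < n t) →
    (∀ t, (h t).kap ≤ r t * M₀) → ∀ A : Set ℕ, DenseA A →
    ∀ (M : ℕ) (𝓕 : ∀ t, Set ((Fin (n t) → ℂ) → ℂ)), (∀ t, (𝓕 t).Countable) →
      (∀ t, ∀ f ∈ 𝓕 t, AnalyticOnNhd ℂ f (ball (rp fun j => (o t j).x) (r t))) →
      (∀ t, ∀ f ∈ 𝓕 t, RealN (fun j => (o t j).x) (r t) f) →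
      ∃ (E : Set ℕ) (z : ∀ t, Fin (n t) → ℝ), E.Infinite ∧ (∀ k ∈ E, k ∈ A ∧ M ≤ k ∧ M₀ ≤ k) ∧
      (∀ K : ℕ, 16 ≤ K → (({k : ℕ | k ∈ E ∧ k ≤ K}.ncard : ℕ) : ℝ) ≤
        C * Real.log (Real.log (Real.log K))) ∧
      (∀ t j, Tendsto (fun N : ℕ => (o t j).x - ∑ k ∈ (range N).filter (· ∈ E), (o t j).τ k) atTop
        (𝓝 (z t j))) ∧
      (∀ t j, |z t j - (o t j).x| < r t) ∧
      ∀ t, ∀ f ∈ 𝓕 t, (¬ ∃ c, ∀ w ∈ ball (rp fun j => (o t j).x) (r t), f w = c) →
        Nrm Q (f (rp (z t))).re := by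
  obtain ⟨C, hC, hmain⟩ := mvMainP
  refine ⟨C, hC, fun Q M₀ hM₀ n o h r hr hn hM A hA M 𝓕 hcount hFA hFR => ?_⟩
  -- the transformed points
  have hx : ∀ t, mc (h t).data.Bi (rp (h t).px) = rp fun j => (o t j).x := by
    intro t
    rw [mc_rp]
    congr 1
    funext i
    exact (h t).bi_x i
  have hx' : ∀ t, mc (h t).data.B (rp fun j => (o t j).x) = rp (h t).px := by
    intro t
    rw [← hx t, mc_mc (h t).data.h1]
  have hr' : ∀ t, 0 < r t / nb (h t).data.Bi := fun t => div_pos (hr t) (nb_pos _)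
  have hball : ∀ t, ∀ w ∈ ball (rp (h t).px) (r t / nb (h t).data.Bi),
      mc (h t).data.Bi w ∈ ball (rp fun j => (o t j).x) (r t) := by
    intro t w hw
    rw [← hx t]
    exact mc_ball hw
  obtain ⟨𝓗, h𝓗⟩ : ∃ 𝓗 : ∀ t, Set ((Fin (n t) → ℂ) → ℂ),
      𝓗 = fun t => (fun f w => f (mc (h t).data.Bi w)) '' 𝓕 t := ⟨_, rfl⟩
  have hHA : ∀ t, ∀ f ∈ 𝓗 t, AnalyticOnNhd ℂ f (ball (rp (h t).px) (r t / nb (h t).data.Bi)) := by
    rw [h𝓗]
    rintro t _ ⟨f, hf, rfl⟩
    exact (hFA t f hf).comp (mc_analytic _ _) (hball t)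
  have hHR : ∀ t, ∀ f ∈ 𝓗 t, RealN (h t).px (r t / nb (h t).data.Bi) f := by
    rw [h𝓗]
    rintro t _ ⟨f, hf, rfl⟩ a ha
    simp only
    rw [mc_rp]
    apply hFR t f hf
    have h1 := hball t (rp a) (rp_mem (hr' t) ha)
    rw [mc_rp, mem_ball_n (hr t)] at h1
    intro j
    have h2 := h1 j
    unfold rp at h2
    rwa [mem_ball_iff_norm, ← Complex.ofReal_sub, Complex.norm_real] at h2
  have hHc : ∀ t, (𝓗 t).Countable := by
    rw [h𝓗]
    exact fun t => (hcount t).image _
  have key : ∃ (E : Set ℕ) (z : ∀ t, Fin (n t) → ℝ), E.Infinite ∧ (∀ k ∈ E, k ∈ A ∧ M ≤ k ∧ M₀ ≤ k) ∧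
      (∀ K : ℕ, 16 ≤ K → (({k : ℕ | k ∈ E ∧ k ≤ K}.ncard : ℕ) : ℝ) ≤
        C * Real.log (Real.log (Real.log K))) ∧
      (∀ t j, Tendsto (fun N : ℕ => ((h t).data.o' j).x - ∑ k ∈ (range N).filter (· ∈ E), ((h t).data.o' j).τ k)
        atTop (𝓝 (z t j))) ∧
      (∀ t j, |z t j - (h t).px j| < r t / nb (h t).data.Bi) ∧
      ∀ t, ∀ f ∈ 𝓗 t, (¬ ∃ c, ∀ w ∈ ball (rp (h t).px) (r t / nb (h t).data.Bi), f w = c) →
        Nrm Q (f (rp (z t))).re :=
    hmain Q M₀ hM₀ (fun t => (h t).tup (r t) (hr t)) hn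
      (fun t => by
        show 8 * (∑ j, (h t).cb j) ≤ r t / nb (h t).data.Bi * M₀
        rw [div_mul_eq_mul_div, le_div_iff₀ (nb_pos _)]
        exact hM t) A hA M 𝓗 hHc hHA hHR
  obtain ⟨E, z, hEinf, hEA, hEK, hl, hz, hfreq⟩ := key
  refine ⟨E, fun t i => ∑ j, (h t).data.Bi i j * z t j, hEinf, hEA, hEK, fun t i => ?_, fun t i => ?_,
    fun t f hf hnc => ?_⟩
  · have h1 : Tendsto (fun N : ℕ => ∑ j, (h t).data.Bi i j * (((h t).data.o' j).x -
        ∑ k ∈ (range N).filter (· ∈ E), ((h t).data.o' j).τ k)) atTop (𝓝 (∑ j, (h t).data.Bi i j * z t j)) :=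
      tendsto_finsetSum _ fun j _ => (hl t j).const_mul _
    refine h1.congr fun N => ?_
    have e1 : ∑ j, (h t).data.Bi i j * ∑ k ∈ (range N).filter (· ∈ E), ((h t).data.o' j).τ k =
        ∑ k ∈ (range N).filter (· ∈ E), (o t i).τ k := by
      rw [sum_congr rfl fun j _ => mul_sum _ _ _, sum_comm]
      exact sum_congr rfl fun k _ => (h t).bi_τ i k
    rw [← e1, ← (h t).bi_x i, ← sum_sub_distrib]
    exact sum_congr rfl fun j _ => mul_sub _ _ _
  · have h1 := hball t (rp (z t)) (rp_mem (hr' t) (hz t))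
    rw [mc_rp, mem_ball_n (hr t)] at h1
    have h2 := h1 i
    unfold rp at h2
    rwa [mem_ball_iff_norm, ← Complex.ofReal_sub, Complex.norm_real] at h2
  · have h1 := hfreq t (fun w => f (mc (h t).data.Bi w)) (by rw [h𝓗]; exact ⟨f, hf, rfl⟩) (by
      rintro ⟨c, hc⟩
      apply hnc
      refine ⟨c, ?_⟩
      have hxb : (rp fun j => (o t j).x) ∈ ball (rp fun j => (o t j).x) (r t) := mem_ball_self (hr t)
      have h3 := (hFA t f hf).eqOn_of_preconnected_of_eventuallyEq (analyticOnNhd_const (v := c))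
        (convex_ball _ _).isPreconnected hxb (by
          have h4 : ∀ᶠ w in 𝓝 (rp fun j => (o t j).x), mc (h t).data.B w ∈
              ball (rp (h t).px) (r t / nb (h t).data.Bi) := by
            apply (mc_continuous (h t).data.B).continuousAt.eventually_mem
            rw [hx' t]
            exact ball_mem_nhds _ (hr' t)
          filter_upwards [h4] with w hw
          have h5 := hc _ hw
          rwa [mc_mc (h t).data.h2] at h5)
      exact fun w hw => h3 hw)
    rw [mc_rp] at h1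
    exact h1

open Classical in
/-- **finitely many series** -/
theorem linOneP : ∃ C : ℝ, 0 < C ∧ ∀ (Q : ℕ → Polynomial ℝ) (n : ℕ) (o : Fin n → Ser), 0 < n → LinInd o →
    ∀ r : ℝ, 0 < r → ∀ A : Set ℕ, DenseA A →
    ∀ (M : ℕ) (𝓕 : Set ((Fin n → ℂ) → ℂ)), 𝓕.Countable →
      (∀ f ∈ 𝓕, AnalyticOnNhd ℂ f (ball (rp fun j => (o j).x) r)) →
      (∀ f ∈ 𝓕, RealN (fun j => (o j).x) r f) →
      ∀ R : Subring ℝ, Countable R →
      ∃ (E : Set ℕ) (z : Fin n → ℝ), E.Infinite ∧ (∀ k ∈ E, k ∈ A ∧ M ≤ k ∧ 1 ≤ k) ∧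
      (∀ K : ℕ, 16 ≤ K → (({k : ℕ | k ∈ E ∧ k ≤ K}.ncard : ℕ) : ℝ) ≤
        C * Real.log (Real.log (Real.log K))) ∧
      (∀ j, Tendsto (fun N : ℕ => (o j).x - ∑ k ∈ (range N).filter (· ∈ E), (o j).τ k) atTop (𝓝 (z j))) ∧
      (∀ j, |z j - (o j).x| < r) ∧
      AlgebraicIndependent R z ∧
      (∀ f ∈ 𝓕, (¬ ∃ c, ∀ w ∈ ball (rp fun j => (o j).x) r, f w = c) → Nrm Q (f (rp z)).re) := by
  obtain ⟨C, hC, hmain⟩ := linMainP
  refine ⟨C, hC, fun Q n o hn h r hr A hA M 𝓕 hcount hFA hFR R hR => ?_⟩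
  have := countable_mvN (n := n) R
  obtain ⟨M₀, hM₀⟩ := exists_nat_ge (max 1 (h.kap / r))
  have hM1 : (1 : ℝ) ≤ M₀ := (le_max_left _ _).trans hM₀
  have hM8 : h.kap / r ≤ M₀ := (le_max_right _ _).trans hM₀
  have hM1' : 1 ≤ M₀ := by exact_mod_cast hM1
  rw [div_le_iff₀ hr] at hM8
  obtain ⟨E, z, hEinf, hEA, hEK, hl, hz, hfreq⟩ := hmain Q M₀ hM1' (fun _ => n) (fun _ => o) (fun _ => h)
    (fun _ => r) (fun _ => hr) ⟨0, hn⟩ (fun _ => by linarith) A hA M
    (fun _ => Set.range (polN R) ∪ 𝓕)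
    (fun _ => (Set.countable_range _).union hcount)
    (by
      rintro _ f (⟨P, rfl⟩ | hf)
      · exact polN_analytic R P _
      · exact hFA f hf)
    (by
      rintro _ f (⟨P, rfl⟩ | hf)
      · intro a _
        rw [polN_real, Complex.ofReal_im]
      · exact hFR f hf)
  refine ⟨E, z 0, hEinf, fun k hk => ⟨(hEA k hk).1, (hEA k hk).2.1, hM1'.trans (hEA k hk).2.2⟩, hEK,
    fun j => hl 0 j, fun j => hz 0 j, ?_, fun f hf => hfreq 0 f (Or.inr hf)⟩
  exact algInd_of_freqN R hr fun P hP => (hfreq 0 _ (Or.inl ⟨P, rfl⟩) hP).1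

end Pool.Agent.H608.Pw
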