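import Pool.Agent.H608.Pw.Build
import Pool.Agent.H608.Ge.Frq

/-!
# Powers: Weyl sums of the limits
-/

set_option autoImplicit false

namespace Pool.Agent.H608.Pw

open Finset Filter Topology
open Pool.Agent.H608.Sp (Sc)
open Pool.Agent.H608.Ge (GProc Small Good Data)

/-- the Weyl sums of the sequence `Q (X) X ^ n` are small -/
def PowEq (Q : Polynomial ℝ) (X : ℝ) : Prop :=
  Tendsto (fun N : ℕ => ‖∑ n ∈ range N, e (Q.eval X * X ^ n)‖ / N) atTop (𝓝 0)

theorem pow_limit (hlim : S_lim) (hwin : S_win) {γ γ₂ : ℝ} {M₀ : ℕ} {P : ℕ → GProc M₀} {A : Set ℕ} {n : ℕ → ℕ}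
    (D : Data γ P A n) (S : Sc (γ / 2) n) (hγ0 : 0 < γ) (hγ₂ : 0 < γ₂) (hγγ : γ ≤ γ₂ / 2)
    {Q : ℕ → Polynomial ℝ} (hg : ∀ j, GoodP P Q γ₂ (D.pr j) (2 ^ n j) (D.F j) (D.k j)) (i q : ℕ) {X a : ℝ} (ha0 : a ≠ 0)
    (hXt : Tendsto (fun j => (P i).val (D.F j)) atTop (𝓝 X))
    (ha : Tendsto (fun j => (P i).b (D.F j) 0) atTop (𝓝 a)) (j₁ : ℕ)
    (hX : ∀ j, j₁ ≤ j → |X - (P i).val (D.F j)| ≤ 4 * (P i).K * ((1 / 2) ^ n j) ^ ((P i).s + 1))
    (hX1 : 1 < X) (hQ : (Q q).eval X ≠ 0) : PowEq (Q q) X := by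
  have hl2 : 0 < Real.log 2 := Real.log_pos (by norm_num)
  have hl2' := Real.log_two_gt_d9
  have hn := S.pos
  have hK := (P i).hK
  have htwo := S.two
  obtain ⟨y, hy⟩ : ∃ y : ℕ → ℝ, y = fun j => (n j : ℝ) * Real.log 2 := ⟨_, rfl⟩
  have hyj : ∀ j, y j = (n j : ℝ) * Real.log 2 := fun j => by rw [hy]
  have hy1 : ∀ j, 1 ≤ y j := fun j => by
    rw [hyj]
    have h1 : (2 : ℝ) ≤ n j := by exact_mod_cast htwo j
    nlinarith
  have hypos : ∀ j, 0 < y j := fun j => by linarith [hy1 j]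
  have hyt : Tendsto y atTop atTop := by
    rw [hy]
    exact S.tendsto'.atTop_mul_const hl2
  have hrat : Tendsto (fun j => y j / y (j + 1)) atTop (𝓝 0) := by
    refine (S.ratio (by positivity)).congr fun j => ?_
    rw [hyj, hyj]
    rw [mul_div_mul_right _ _ hl2.ne']
  obtain ⟨δ, hδ⟩ : ∃ δ : ℕ → ℝ, δ = fun j => 1 / ((D.pr j : ℝ) + 1) := ⟨_, rfl⟩
  have hδj : ∀ j, δ j = 1 / ((D.pr j : ℝ) + 1) := fun j => by rw [hδ]
  have hδpos : ∀ j, 0 < δ j := fun j => by rw [hδj]; positivity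
  have hprt : Tendsto (fun j => (D.pr j : ℝ) + 1) atTop atTop :=
    tendsto_atTop_add_const_right _ _ (tendsto_natCast_atTop_atTop.comp D.tends)
  have hδt : Tendsto δ atTop (𝓝 0) := by
    rw [hδ]
    refine hprt.inv_tendsto_atTop.congr fun j => ?_
    simp
  have hup : ∀ j, y (j + 1) ≤ (y j) ^ (1 + γ₂ / 4) := by
    intro j
    have h1 := S.up j
    rw [← hyj, ← hyj] at h1
    refine h1.trans (Real.rpow_le_rpow_of_exponent_le (hy1 j) (by linarith))
  have hlogH : ∀ j, Real.log ((2 ^ n j : ℕ) : ℝ) = y j := by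
    intro j
    rw [hyj]
    push_cast
    rw [Real.log_pow]
  have hexp : ∀ j, (((1 : ℝ) / 2) ^ n j) ^ ((P i).s + 1) = Real.exp (-(((P i).s + 1 : ℝ) * y j)) := by
    intro j
    have h4 : ((1 : ℝ) / 2) ^ n j = Real.exp (-(y j)) := by
      rw [hyj, Real.exp_neg, mul_comm, Real.exp_mul, Real.exp_log (by norm_num)]
      rw [one_div, inv_pow]
      norm_cast
    rw [h4, ← Real.exp_nat_mul]
    congr 1
    push_cast
    ring
  unfold PowEq
  refine hlim hwin γ₂ (P i).s (4 * (P i).K) X (Q q) y δ (fun j => (P i).val (D.F j)) hγ₂ (by positivity) hX1 hy1 hyt hrat hup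
    hδpos hδt ?_ ?_
  · filter_upwards [eventually_ge_atTop j₁] with j hj
    rw [← hexp]
    exact hX j hj
  · obtain ⟨j₂, hj₂⟩ := D.exists_large S i
    have e1 : ∀ᶠ j in atTop, i + 1 ≤ D.pr j := D.tends.eventually_ge_atTop _
    have e2 : ∀ᶠ j in atTop, q + 1 ≤ D.pr j := D.tends.eventually_ge_atTop _
    have e3 : ∀ᶠ j in atTop, 1 + 1 / ((D.pr j : ℝ) + 1) ≤ (P i).val (D.F j) := by
      have h1 := hδt.eventually_lt_const (show (0 : ℝ) < (X - 1) / 2 by linarith)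
      have h2 := hXt.eventually_const_lt (show 1 + (X - 1) / 2 < X by linarith)
      filter_upwards [h1, h2] with j b1 b2
      rw [hδj] at b1
      linarith
    have e4 : ∀ᶠ j in atTop, (P i).val (D.F j) ≤ (D.pr j : ℝ) + 1 := by
      have h1 := hXt.eventually_lt_const (show X < X + 1 by linarith)
      filter_upwards [h1, hprt.eventually_ge_atTop (X + 1)] with j b1 b2
      linarith
    have e5 : ∀ᶠ j in atTop, 1 / ((D.pr j : ℝ) + 1) ≤ |(Q q).eval ((P i).val (D.F j))| := by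
      have h2 : Tendsto (fun j => |(Q q).eval ((P i).val (D.F j))|) atTop (𝓝 |(Q q).eval X|) :=
        (((Q q).continuous.tendsto X).comp hXt).abs
      have h3 : 0 < |(Q q).eval X| := abs_pos.2 hQ
      filter_upwards [hδt.eventually_lt_const (show (0 : ℝ) < |(Q q).eval X| / 2 by positivity),
        h2.eventually_const_lt (show |(Q q).eval X| / 2 < |(Q q).eval X| by linarith)] with j b1 b2
      rw [hδj] at b1
      linarith
    have e6 : ∀ᶠ j in atTop, Real.exp (-(y j) ^ (1 / 3 : ℝ)) ≤ |(P i).b (D.F j) 0| := by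
      have h1 : Tendsto (fun j => Real.exp (-(y j) ^ (1 / 3 : ℝ))) atTop (𝓝 0) :=
        Real.tendsto_exp_neg_atTop_nhds_zero.comp ((tendsto_rpow_atTop (by norm_num)).comp hyt)
      have h3 : 0 < |a| := abs_pos.2 ha0
      filter_upwards [h1.eventually_lt_const (show 0 < |a| / 2 by positivity),
        ha.abs.eventually_const_lt (show |a| / 2 < |a| by linarith)] with j b1 b2
      exact (b1.trans b2).le
    filter_upwards [e1, e2, e3, e4, e5, e6, eventually_ge_atTop j₂] with j a1 a2 a3 a4 a5 a6 a7 N hN1 hN2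
    have hgood := hg j i a1 q a2 a3 a4 a5
    rw [hlogH] at hgood
    have h1 := hgood a6
    rw [← D.val_succ S i j (hj₂ j a7).1] at h1
    by_contra hcon
    push Not at hcon
    apply h1
    rw [← hδj]
    exact ⟨N, hN1, hN2, hcon⟩

end Pool.Agent.H608.Pw
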