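import Pool.Agent.H608.Pw.Stage
import Pool.Agent.H608.Ge.Proc

/-!
# Powers: the good places
-/

set_option autoImplicit false

namespace Pool.Agent.H608.Pw

open Finset Filter Topology
open Pool.Agent.H608.Ge (GProc Small Good BadG Cls stageG)

/-- the set `A` has at least `H / (log H) ^ (1 / 4)` elements in `[H, 2 H)`, for large `H` -/
def DenseA (A : Set ℕ) : Prop :=
  ∀ᶠ H : ℕ in atTop, H * (Real.log H) ^ (-(1 / 4) : ℝ) ≤ (({k : ℕ | k ∈ A ∧ H ≤ k ∧ k < 2 * H}.ncard : ℕ) : ℝ)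

/-- the place `k` is good for the powers of the first `p` processes, and the first `p` polynomials, at the scale `H` -/
def GoodP {M₀ : ℕ} (P : ℕ → GProc M₀) (Q : ℕ → Polynomial ℝ) (γ : ℝ) (p H : ℕ) (F : Finset ℕ) (k : ℕ) : Prop :=
  ∀ i < p, ∀ q < p, 1 + 1 / ((p : ℝ) + 1) ≤ (P i).val F → (P i).val F ≤ (p : ℝ) + 1 →
    1 / ((p : ℝ) + 1) ≤ |(Q q).eval ((P i).val F)| → Real.exp (-(Real.log H) ^ (1 / 3 : ℝ)) ≤ |(P i).b F 0| →
    ¬ BadP (Real.log H) γ (1 / ((p : ℝ) + 1)) (P i).s ((P i).val F) (Q q) ((P i).val F + Ge.ser (P i).s ((P i).b F) k)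

lemma badG_mono {y γ γ' δ : ℝ} {s : ℕ} {z : ℝ} (hy : 1 ≤ y) (h : γ' ≤ γ) (hb : BadG y γ' δ s z) : BadG y γ δ s z := by
  obtain ⟨r, u, v, h1, h2, h3, h4, h5⟩ := hb
  refine ⟨r, u, v, h1, le_trans ?_ h2, h3.trans ?_, h4, h5⟩
  · exact Real.rpow_le_rpow_of_exponent_le hy (by linarith)
  · exact Real.rpow_le_rpow_of_exponent_le hy (by linarith)

theorem exists_goodP (hcomp : S_comp) (hcount : S_count) (hpair : S_pair) : ∃ γ γ₂ : ℝ, 0 < γ ∧ γ ≤ 1 / 20 ∧ 0 < γ₂ ∧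
    γ ≤ γ₂ / 2 ∧ ∀ (M₀ : ℕ) (P : ℕ → GProc M₀) (Q : ℕ → Polynomial ℝ) (A : Set ℕ), DenseA A →
    ∀ p : ℕ, ∃ T : ℕ, ∀ H : ℕ, T ≤ H → ∀ F : Finset ℕ, Small M₀ F → ∃ k, Good P A γ p H F k ∧ GoodP P Q γ₂ p H F k := by
  classical
  obtain ⟨γ₁, hγ0, hγ1, hst⟩ := stageG
  obtain ⟨γ₂, hγ20, hγ21, hst2⟩ := stageP hcomp hcount hpair
  refine ⟨min γ₁ (γ₂ / 2), γ₂, lt_min hγ0 (by positivity), (min_le_left _ _).trans hγ1, hγ20, min_le_right _ _,
    fun M₀ P Q A hA p => ?_⟩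
  choose H₀ hH₀ using fun s : ℕ => hst s (1 / ((p : ℝ) + 1)) (by positivity)
  have hη : 0 < 1 / ((p : ℝ) + 1) := by positivity
  have hη1 : 1 / ((p : ℝ) + 1) ≤ 1 := by
    rw [div_le_one (by positivity)]
    linarith [(Nat.cast_nonneg p : (0 : ℝ) ≤ p)]
  choose H₁ hH₁ using fun i q : ℕ => hst2 (P i).s (1 / ((p : ℝ) + 1)) (1 / ((p : ℝ) + 1)) (P i).K (P i).D (Q q) hη hη1 hη
    (P i).hK (P i).hD
  have hlog : Tendsto (fun N : ℕ => Real.log N) atTop atTop :=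
    Real.tendsto_log_atTop.comp tendsto_natCast_atTop_atTop
  have hexp : ∀ t : ℝ, 0 < t → Tendsto (fun N : ℕ => Real.exp ((Real.log N) ^ t)) atTop atTop := fun t ht =>
    Real.tendsto_exp_atTop.comp ((tendsto_rpow_atTop ht).comp hlog)
  have hev : ∀ᶠ N : ℕ in atTop, ∀ i ∈ range p, (P i).K ≤ Real.exp ((Real.log N) ^ (1 / 3 : ℝ)) ∧
      (P i).D ≤ Real.exp ((Real.log N) ^ (1 / 2 : ℝ)) ∧ (P i).K ≤ N ∧ H₀ (P i).s ≤ N := by
    rw [Filter.eventually_all_finset]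
    intro i _
    exact ((hexp _ (by norm_num)).eventually_ge_atTop _).and
      (((hexp _ (by norm_num)).eventually_ge_atTop _).and
      ((tendsto_natCast_atTop_atTop.eventually_ge_atTop _).and (eventually_ge_atTop _)))
  have hev2 : ∀ᶠ N : ℕ in atTop, ∀ i ∈ range p, ∀ q ∈ range p, H₁ i q ≤ N := by
    rw [Filter.eventually_all_finset]
    intro i _
    rw [Filter.eventually_all_finset]
    intro q _
    exact eventually_ge_atTop _
  have ev2 : ∀ᶠ y : ℝ in atTop, 2 * y ^ (1 / 3 : ℝ) ≤ y ^ (1 / 2 : ℝ) :=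
    Pool.Agent.Helper478.Surds.ev_pow _ _ _ (by norm_num)
  have ev3 : ∀ᶠ y : ℝ in atTop, (4 * (p : ℝ) + 4 * (p : ℝ) ^ 2 + 4) * y ^ (-(1 / 2) : ℝ) ≤ y ^ (-(1 / 4) : ℝ) :=
    Pool.Agent.Helper478.Surds.ev_pow _ _ _ (by norm_num)
  have ev4 : ∀ᶠ y : ℝ in atTop, Real.exp (-√y) ≤ y ^ (-(1 / 2) : ℝ) := by
    filter_upwards [eventually_gt_atTop 0] with y hy
    have h1 : y ^ (-(1 / 2) : ℝ) = (√y)⁻¹ := by
      rw [Real.rpow_neg hy.le, Real.sqrt_eq_rpow]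
    rw [h1, Real.exp_neg]
    have h2 : 0 < √y := Real.sqrt_pos.2 hy
    apply inv_anti₀ h2
    have := Real.add_one_le_exp (√y)
    linarith
  have ev5 : ∀ᶠ y : ℝ in atTop, 1 ≤ Real.exp y * y ^ (-(1 / 2) : ℝ) := by
    filter_upwards [eventually_ge_atTop 1] with y hy
    have h1 : y ^ (-(1 / 2) : ℝ) = (√y)⁻¹ := by
      rw [Real.rpow_neg (by linarith), Real.sqrt_eq_rpow]
    have h2 : 0 < √y := Real.sqrt_pos.2 (by linarith)
    rw [h1, ← div_eq_mul_inv, one_le_div h2]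
    have h3 : √y ≤ y := by
      rw [Real.sqrt_le_left (by linarith)]
      nlinarith
    have := Real.add_one_le_exp y
    linarith
  obtain ⟨T, hT⟩ := eventually_atTop.1 ((hev.and hev2).and ((hlog.eventually (ev2.and (ev3.and (ev4.and ev5)))).and
    ((hA.and (hlog.eventually_ge_atTop 2)).and (eventually_ge_atTop 2))))
  refine ⟨T, fun H hH F hF => ?_⟩
  obtain ⟨⟨g1, g2⟩, ⟨g3, g4, g5, g6⟩, ⟨g7, g8⟩, g9⟩ := hT H hH
  have hHpos : (0 : ℝ) < H := by exact_mod_cast (by omega : 0 < H)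
  obtain ⟨y, hy⟩ : ∃ y : ℝ, y = Real.log H := ⟨_, rfl⟩
  have hHexp : (H : ℝ) = Real.exp y := by rw [hy, Real.exp_log hHpos]
  rw [← hy] at g1 g3 g4 g5 g6 g7 g8
  by_contra hcon
  push Not at hcon
  obtain ⟨Bad, hBad⟩ : ∃ Bad : ℕ → Set ℕ, Bad = fun i => {m : ℕ | H < m ∧ m ≤ 2 * H ∧
    Real.exp (-y ^ (1 / 3 : ℝ)) ≤ |(P i).b F 0| ∧
    BadG y γ₁ (1 / ((p : ℝ) + 1)) (P i).s ((P i).val F + Ge.ser (P i).s ((P i).b F) m)} := ⟨_, rfl⟩
  obtain ⟨Bd, hBd⟩ : ∃ Bd : ℕ → ℕ → Set ℕ, Bd = fun i q => {m : ℕ | H < m ∧ m ≤ 2 * H ∧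
    (1 + 1 / ((p : ℝ) + 1) ≤ (P i).val F ∧ (P i).val F ≤ (p : ℝ) + 1 ∧
      1 / ((p : ℝ) + 1) ≤ |(Q q).eval ((P i).val F)| ∧ Real.exp (-y ^ (1 / 3 : ℝ)) ≤ |(P i).b F 0|) ∧
    BadP y γ₂ (1 / ((p : ℝ) + 1)) (P i).s ((P i).val F) (Q q) ((P i).val F + Ge.ser (P i).s ((P i).b F) m)} := ⟨_, rfl⟩
  have hfin : ∀ i, (Bad i).Finite := fun i => (Set.finite_Iic (2 * H)).subset fun m hm => by
    rw [hBad] at hm
    exact hm.2.1
  have hfin2 : ∀ i q, (Bd i q).Finite := fun i q => (Set.finite_Iic (2 * H)).subset fun m hm => by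
    rw [hBd] at hm
    exact hm.2.1
  have hcount1 : ∀ i ∈ range p, ((Bad i).ncard : ℝ) ≤ H * Real.exp (-√y) := by
    intro i hi
    obtain ⟨a1, a2, a3, a4⟩ := g1 i hi
    by_cases hact : Real.exp (-y ^ (1 / 3 : ℝ)) ≤ |(P i).b F 0|
    · have hb0 : 0 < |(P i).b F 0| := lt_of_lt_of_le (Real.exp_pos _) hact
      have h1 := hH₀ (P i).s H ((P i).val F) (P i).K (P i).D ((P i).b F) a4 ?_ ?_ ?_
      · rw [← hy] at h1
        refine le_trans ?_ h1
        have h2 : Bad i ⊆ {m : ℕ | H < m ∧ m ≤ 2 * H ∧ BadG y γ₁ (1 / ((p : ℝ) + 1)) (P i).s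
            ((P i).val F + Ge.ser (P i).s ((P i).b F) m)} := by
          intro m hm
          rw [hBad] at hm
          exact ⟨hm.1, hm.2.1, hm.2.2.2⟩
        exact_mod_cast Set.ncard_le_ncard h2 ((Set.finite_Iic (2 * H)).subset fun m hm => hm.2.1)
      · rw [← hy]
        refine ⟨(P i).bd F hF, (P i).hD, a2, ?_, abs_pos.1 hb0⟩
        calc (P i).K ≤ Real.exp (y ^ (1 / 3 : ℝ)) := a1
          _ = Real.exp (y ^ (1 / 3 : ℝ)) * (Real.exp (y ^ (1 / 3 : ℝ)) * Real.exp (-y ^ (1 / 3 : ℝ))) := by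
              rw [← Real.exp_add, add_neg_cancel, Real.exp_zero, mul_one]
          _ ≤ Real.exp (y ^ (1 / 3 : ℝ)) * (Real.exp (y ^ (1 / 3 : ℝ)) * |(P i).b F 0|) := by gcongr
          _ = Real.exp (2 * y ^ (1 / 3 : ℝ)) * |(P i).b F 0| := by
              rw [← mul_assoc, ← Real.exp_add, two_mul]
          _ ≤ Real.exp (y ^ (1 / 2 : ℝ)) * |(P i).b F 0| := by gcongr
      · rw [← hy]
        exact hact
      · have h2 := (P i).bd F hF 0
        rw [pow_zero, mul_one] at h2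
        exact h2.trans a3
    · have h1 : Bad i = ∅ := by
        rw [hBad]
        ext m
        simp only [Set.mem_setOf_eq, Set.mem_empty_iff_false, iff_false]
        exact fun hm => hact hm.2.2.1
      rw [h1, Set.ncard_empty]
      push_cast
      positivity
  have hy0 : 0 < y := by linarith
  have hcount2 : ∀ i ∈ range p, ∀ q ∈ range p, ((Bd i q).ncard : ℝ) ≤ H * y ^ (-(1 / 2) : ℝ) := by
    intro i hi q hq
    by_cases hact : (1 + 1 / ((p : ℝ) + 1) ≤ (P i).val F ∧ (P i).val F ≤ (p : ℝ) + 1 ∧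
      1 / ((p : ℝ) + 1) ≤ |(Q q).eval ((P i).val F)| ∧ Real.exp (-y ^ (1 / 3 : ℝ)) ≤ |(P i).b F 0|)
    · obtain ⟨c1, c2, c3, c4⟩ := hact
      have h1 := hH₁ i q H ((P i).val F) ((P i).b F) (g2 i hi q hq) ((P i).bd F hF) c1 (by
        rw [one_div_one_div]
        exact c2) c3 (by rw [← hy]; exact c4)
      rw [← hy] at h1
      refine le_trans ?_ h1
      have h2 : Bd i q ⊆ {m : ℕ | H < m ∧ m ≤ 2 * H ∧ BadP y γ₂ (1 / ((p : ℝ) + 1)) (P i).s ((P i).val F) (Q q)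
          ((P i).val F + ser (P i).s ((P i).b F) m)} := by
        intro m hm
        rw [hBd] at hm
        exact ⟨hm.1, hm.2.1, hm.2.2.2⟩
      exact_mod_cast Set.ncard_le_ncard h2 ((Set.finite_Iic (2 * H)).subset fun m hm => hm.2.1)
    · have h1 : Bd i q = ∅ := by
        rw [hBd]
        ext m
        simp only [Set.mem_setOf_eq, Set.mem_empty_iff_false, iff_false]
        exact fun hm => hact hm.2.2.1
      rw [h1, Set.ncard_empty]
      push_cast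
      positivity
  have hsub : {k : ℕ | k ∈ A ∧ H ≤ k ∧ k < 2 * H} ⊆ {H} ∪ ((⋃ i ∈ range p, Bad i) ∪ ⋃ i ∈ range p, ⋃ q ∈ range p, Bd i q) := by
    rintro k ⟨hk1, hk2, hk3⟩
    rcases Nat.eq_or_lt_of_le hk2 with h | h
    · exact Or.inl h.symm
    · right
      by_cases hg : Good P A (min γ₁ (γ₂ / 2)) p H F k
      · right
        have h1 := hcon k hg
        unfold GoodP at h1
        push Not at h1
        obtain ⟨i, hi, q, hq, h2, h3, h4, h5, hb⟩ := h1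
        simp only [Set.mem_iUnion]
        refine ⟨i, mem_range.2 hi, q, mem_range.2 hq, ?_⟩
        rw [hBd]
        rw [← hy] at h5 hb
        exact ⟨h, hk3.le, ⟨h2, h3, h4, h5⟩, hb⟩
      · left
        unfold Good at hg
        push Not at hg
        obtain ⟨i, hi, h2, hb⟩ := hg hk1 h hk3.le
        simp only [Set.mem_iUnion]
        refine ⟨i, mem_range.2 hi, ?_⟩
        rw [hBad]
        rw [← hy] at h2 hb
        exact ⟨h, hk3.le, h2, badG_mono (by linarith) (min_le_left _ _) hb⟩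
  have h1 : (({k : ℕ | k ∈ A ∧ H ≤ k ∧ k < 2 * H}.ncard : ℕ) : ℝ) ≤
      1 + (∑ i ∈ range p, ((Bad i).ncard : ℝ) + ∑ i ∈ range p, ∑ q ∈ range p, ((Bd i q).ncard : ℝ)) := by
    have h2 : {k : ℕ | k ∈ A ∧ H ≤ k ∧ k < 2 * H}.ncard ≤
        1 + (∑ i ∈ range p, (Bad i).ncard + ∑ i ∈ range p, ∑ q ∈ range p, (Bd i q).ncard) := by
      have f1 : (⋃ i ∈ range p, Bad i).Finite := Set.Finite.biUnion (Finset.finite_toSet _) fun q _ => hfin q
      have f3 : ∀ i, (⋃ q ∈ range p, Bd i q).Finite := fun i =>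
        Set.Finite.biUnion (Finset.finite_toSet _) fun q _ => hfin2 i q
      have f2 : (⋃ i ∈ range p, ⋃ q ∈ range p, Bd i q).Finite :=
        Set.Finite.biUnion (Finset.finite_toSet _) fun i _ => f3 i
      refine (Set.ncard_le_ncard hsub ?_).trans ((Set.ncard_union_le _ _).trans ?_)
      · exact (Set.finite_singleton H).union (f1.union f2)
      · rw [Set.ncard_singleton]
        refine Nat.add_le_add_left ((Set.ncard_union_le _ _).trans (Nat.add_le_add ?_ ?_)) 1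
        · exact Finset.set_ncard_biUnion_le _ _
        · exact (Finset.set_ncard_biUnion_le _ _).trans (sum_le_sum fun i _ => Finset.set_ncard_biUnion_le _ _)
    exact_mod_cast h2
  have h2 : ∑ i ∈ range p, ((Bad i).ncard : ℝ) ≤ p * (H * y ^ (-(1 / 2) : ℝ)) := by
    refine (sum_le_sum fun i hi => (hcount1 i hi).trans (mul_le_mul_of_nonneg_left g5 hHpos.le)).trans (le_of_eq ?_)
    rw [sum_const, nsmul_eq_mul, card_range]
  have h3 : ∑ i ∈ range p, ∑ q ∈ range p, ((Bd i q).ncard : ℝ) ≤ p * (p * (H * y ^ (-(1 / 2) : ℝ))) := by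
    refine (sum_le_sum fun i hi => sum_le_sum fun q hq => hcount2 i hi q hq).trans (le_of_eq ?_)
    simp only [sum_const, nsmul_eq_mul, card_range]
  have h4 : 1 ≤ H * y ^ (-(1 / 2) : ℝ) := by
    rw [hHexp]
    exact g6
  have h5 : H * ((4 * (p : ℝ) + 4 * (p : ℝ) ^ 2 + 4) * y ^ (-(1 / 2) : ℝ)) ≤ H * y ^ (-(1 / 4) : ℝ) :=
    mul_le_mul_of_nonneg_left g4 hHpos.le
  have h6 : 0 < H * y ^ (-(1 / 2) : ℝ) := by positivity
  have hp0 : (0 : ℝ) ≤ p := Nat.cast_nonneg p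
  nlinarith [mul_nonneg hp0 h6.le, mul_nonneg (mul_nonneg hp0 hp0) h6.le]

end Pool.Agent.H608.Pw
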