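import Pool.Agent.H608.Ge.Rng
import Pool.Agent.H608.Pw.Stm

/-!
# Powers: few bad integers in a dyadic interval
-/

set_option autoImplicit false

namespace Pool.Agent.H608.Pw

open Finset Filter Topology
open Pool.Agent.H608.Ge (Cls rangeS)

/-- a Weyl sum of the powers of `x` is large -/
def BadP (y γ δ : ℝ) (s : ℕ) (c : ℝ) (Q : Polynomial ℝ) (x : ℝ) : Prop :=
  ∃ N : ℕ, ⌈(s + 1 + δ) * y / Real.log c⌉₊ ≤ N ∧ (N : ℝ) ≤ y ^ (1 + γ / 2) ∧
    δ * N < ‖∑ n ∈ Ico ⌈(s + 1 + δ) * y / Real.log c⌉₊ N, e (Q.eval x * x ^ n)‖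

lemma norm_e' (x : ℝ) : ‖e x‖ = 1 := by
  unfold e
  exact Complex.norm_exp_ofReal_mul_I _

lemma e_add' (x y : ℝ) : e (x + y) = e x * e y := by
  unfold e
  rw [← Complex.exp_add]
  congr 1
  push_cast
  ring

lemma ser_sum {s : ℕ} {b : ℕ → ℝ} {K D t : ℝ} (hb : ∀ i, |b i| ≤ K * D ^ (s + 1 + i)) (hD : 0 ≤ D) (ht : D < t) :
    Summable fun i => b i / t ^ (s + 1 + i) := by
  have ht0 : 0 < t := lt_of_le_of_lt hD ht
  have hr0 : 0 ≤ D / t := by positivity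
  have hr1 : D / t < 1 := (div_lt_one ht0).2 ht
  refine Summable.of_norm_bounded (g := fun i => K * (D / t) ^ (s + 1) * (D / t) ^ i)
    ((summable_geometric_of_lt_one hr0 hr1).mul_left _) fun i => ?_
  rw [Real.norm_eq_abs, abs_div, abs_of_pos (pow_pos ht0 _), div_le_iff₀ (pow_pos ht0 _)]
  refine (hb i).trans (le_of_eq ?_)
  rw [mul_assoc K, ← pow_add, div_pow, mul_assoc, div_mul_cancel₀ _ (pow_pos ht0 _).ne']

lemma ser_sub {s : ℕ} {b b' : ℕ → ℝ} {K K' D D' t : ℝ} (hb : ∀ i, |b i| ≤ K * D ^ (s + 1 + i))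
    (hb' : ∀ i, |b' i| ≤ K' * D' ^ (s + 1 + i)) (hD : 0 ≤ D) (hD' : 0 ≤ D') (ht : D < t) (ht' : D' < t) :
    ser s b t - ser s b' t = ser s (fun i => b i - b' i) t := by
  unfold ser
  rw [← (ser_sum hb hD ht).tsum_sub (ser_sum hb' hD' ht')]
  refine tsum_congr fun i => ?_
  rw [sub_div]

theorem stageP (hcomp : S_comp) (hcount : S_count) (hpair : S_pair) : ∃ γ : ℝ, 0 < γ ∧ γ ≤ 1 / 20 ∧
    ∀ (s : ℕ) (δ η K D : ℝ) (Q : Polynomial ℝ), 0 < δ → δ ≤ 1 → 0 < η → 0 ≤ K → 0 ≤ D → ∃ H₀ : ℕ,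
      ∀ (H : ℕ) (c : ℝ) (b : ℕ → ℝ), H₀ ≤ H → (∀ i, |b i| ≤ K * D ^ i) → 1 + η ≤ c → c ≤ 1 / η → η ≤ |Q.eval c| →
        Real.exp (-(Real.log H) ^ (1 / 3 : ℝ)) ≤ |b 0| →
        (({m : ℕ | H < m ∧ m ≤ 2 * H ∧ BadP (Real.log H) γ δ s c Q (c + ser s b m)}.ncard : ℕ) : ℝ) ≤
          H * (Real.log H) ^ (-(1 / 2) : ℝ) := by
  obtain ⟨γ, hγ0, hγ1, hr⟩ := rangeS
  refine ⟨γ, hγ0, hγ1, fun s δ η K D Q hδ hδ1 hη hK hD => ?_⟩
  obtain ⟨B, hB1, hB⟩ := hcomp s η K D Q hη hK hD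
  obtain ⟨N₁, hN₁⟩ := hr s (δ / 2) (by positivity)
  obtain ⟨H₁, hH₁⟩ := hpair γ s δ η K B Q hγ0 hγ1 hδ hδ1 hη hK hB1
  obtain ⟨y₀, hy₀⟩ := hcount γ δ η hγ0 hγ1 hδ hη
  have hlog : Tendsto (fun N : ℕ => Real.log N) atTop atTop :=
    Real.tendsto_log_atTop.comp tendsto_natCast_atTop_atTop
  obtain ⟨H₂, hH₂⟩ := eventually_atTop.1 (hlog.eventually_ge_atTop (max y₀ 1))
  refine ⟨max (max N₁ H₁) H₂, fun H c b hH hb hc1 hc2 hQ hb0 => ?_⟩
  have hHN : N₁ ≤ H := ((le_max_left _ _).trans (le_max_left _ _)).trans hH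
  have hHH : H₁ ≤ H := ((le_max_right _ _).trans (le_max_left _ _)).trans hH
  have hy := hH₂ H ((le_max_right _ _).trans hH)
  have hyy : y₀ ≤ Real.log H := (le_max_left _ _).trans hy
  have hy1 : 1 ≤ Real.log H := (le_max_right _ _).trans hy
  obtain ⟨a, ha⟩ : ∃ a : ℕ, a = ⌈(s + 1 + δ) * Real.log H / Real.log c⌉₊ := ⟨_, rfl⟩
  have hc1' : 1 < c := by linarith
  have hlc : 0 < Real.log c := Real.log_pos hc1'
  have hlc2 : Real.log c ≤ 1 / η := by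
    have := Real.log_le_sub_one_of_pos (show 0 < c by linarith)
    linarith
  have hb0K : |b 0| ≤ K := by
    have := hb 0
    rwa [pow_zero, mul_one] at this
  have haa : (s + 1 + δ) * Real.log H / Real.log c ≤ a := by
    rw [ha]
    exact Nat.le_ceil _
  have hs0 : (0 : ℝ) ≤ s := Nat.cast_nonneg s
  have hκ : η * Real.log H ≤ a := by
    refine le_trans ?_ haa
    rw [le_div_iff₀ hlc]
    have h1 : η * Real.log c ≤ 1 := by
      calc η * Real.log c ≤ η * (1 / η) := by gcongr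
        _ = 1 := by field_simp
    calc η * Real.log H * Real.log c = (η * Real.log c) * Real.log H := by ring
      _ ≤ 1 * Real.log H := by gcongr
      _ ≤ (s + 1 + δ) * Real.log H := by
          gcongr
          linarith
  have hset : {m : ℕ | H < m ∧ m ≤ 2 * H ∧ BadP (Real.log H) γ δ s c Q (c + ser s b m)} =
      {m : ℕ | H < m ∧ m ≤ 2 * H ∧ ∃ N : ℕ, a ≤ N ∧ (N : ℝ) ≤ (Real.log H) ^ (1 + γ / 2) ∧
        δ * N < ‖∑ n ∈ Ico a N, e ((fun (n m : ℕ) => Q.eval (c + ser s b m) * (c + ser s b m) ^ n) n m)‖} := by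
    unfold BadP
    rw [ha]
  rw [hset]
  refine hy₀ H a _ hyy hκ fun n n' han hnn hn => ?_
  have hn1 : 1 ≤ n' := by
    have h1 : (0 : ℝ) < a := lt_of_lt_of_le (by positivity) hκ
    have h2 : 0 < a := by exact_mod_cast h1
    omega
  obtain ⟨b1, hb10, hb1, hb1t⟩ := hB c b n hc1 hc2 hb (by omega)
  obtain ⟨b2, hb20, hb2, hb2t⟩ := hB c b n' hc1 hc2 hb hn1
  have hna : (s + 1 + δ) * Real.log H / Real.log c ≤ n' := haa.trans (by exact_mod_cast han)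
  obtain ⟨p1, p2, p3, p4, p5, p6, p7⟩ := hH₁ H c (b 0) n n' b1 b2 hHH hc1 hc2 hQ hb0 hb0K hna hnn hn hb10 hb20 hb1 hb2
  have hB0 : 0 < B := by linarith
  have hBn : B * n' ≤ B * n := by
    have : (n' : ℝ) ≤ n := by exact_mod_cast hnn.le
    gcongr
  have hphase : ∀ m : ℕ, H < m → (Q.eval (c + ser s b m) * (c + ser s b m) ^ n - Q.eval (c + ser s b m) * (c + ser s b m) ^ n') =
      (Q.eval c * c ^ n - Q.eval c * c ^ n') + ser s (fun i => b1 i - b2 i) m := by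
    intro m hm
    have hm' : (H : ℝ) < m := by exact_mod_cast hm
    have h1 : B * n < m := lt_of_le_of_lt p3 hm'
    have h2 : B * n' < m := lt_of_le_of_lt hBn h1
    rw [hb1t m h1.le, hb2t m h2.le, ← ser_sub (K := c ^ n) (K' := c ^ n') (D := B * n) (D' := B * n') hb1 hb2 (by positivity)
      (by positivity) h1 h2]
    ring
  have hsum : ‖∑ m ∈ Ioc H (2 * H), e (Q.eval (c + ser s b m) * (c + ser s b m) ^ n -
      Q.eval (c + ser s b m) * (c + ser s b m) ^ n')‖ =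
      ‖∑ l ∈ Ioc 0 H, e (1 * ser s (fun i => b1 i - b2 i) ((H : ℝ) + l))‖ := by
    have h1 : ∑ m ∈ Ioc H (2 * H), e (Q.eval (c + ser s b m) * (c + ser s b m) ^ n -
        Q.eval (c + ser s b m) * (c + ser s b m) ^ n') =
        e (Q.eval c * c ^ n - Q.eval c * c ^ n') * ∑ l ∈ Ioc 0 H, e (1 * ser s (fun i => b1 i - b2 i) ((H : ℝ) + l)) := by
      rw [mul_sum]
      refine sum_bij' (fun m _ => m - H) (fun l _ => l + H) ?_ ?_ ?_ ?_ ?_
      · intro m hm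
        rw [mem_Ioc] at hm ⊢
        omega
      · intro l hl
        rw [mem_Ioc] at hl ⊢
        omega
      · intro m hm
        rw [mem_Ioc] at hm
        omega
      · intro l hl
        omega
      · intro m hm
        rw [mem_Ioc] at hm
        have h2 : (H : ℝ) + ((m - H : ℕ) : ℝ) = m := by
          rw [Nat.cast_sub hm.1.le]
          ring
        rw [h2, ← e_add', hphase m hm.1, one_mul]
    rw [h1, norm_mul, norm_e', one_mul]
  refine (le_of_eq hsum).trans ?_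
  refine hN₁ H H 1 (2 * c ^ n * (B * n) ^ (s + 1)) (B * n) (fun i => b1 i - b2 i) hHN le_rfl one_pos
    ⟨p1, by positivity, p2, p4, p5⟩ ?_ ?_
  · rw [one_mul]
    exact p6
  · rw [one_mul]
    exact p7

end Pool.Agent.H608.Pw
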